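import Mathlib

/-!
# Plain paradoxes, part A: reduced words over six involutions
-/

namespace V11256.PP

abbrev S : Type := Fin 6

/-- reduced words: no two consecutive letters are equal -/
def Red : List S → Prop
  | [] => True
  | s :: t => t.head? ≠ some s ∧ Red t

/-- left multiplication of a word by a letter -/
def lml (s : S) (w : List S) : List S := if w.head? = some s then w.tail else s :: w

theorem red_lml (s : S) {w : List S} (h : Red w) : Red (lml s w) := by
  unfold lml
  split_ifs with h1
  · cases w with
    | nil => simp at h1
    | cons a t => exact h.2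
  · exact ⟨h1, h⟩

/-- vertices of the six-regular tree -/
abbrev V : Type := {l : List S // Red l}

def one : V := ⟨[], trivial⟩

def lm (s : S) (h : V) : V := ⟨lml s h.1, red_lml s h.2⟩

/-- the branch at the root containing a vertex -/
def br (h : V) : Option S := h.1.head?

def len (h : V) : ℕ := h.1.length

theorem lml_of_eq {s : S} {w : List S} (h : w.head? = some s) : lml s w = w.tail := by
  unfold lml; rw [if_pos h]

theorem lml_of_ne {s : S} {w : List S} (h : w.head? ≠ some s) : lml s w = s :: w := by
  unfold lml; rw [if_neg h]

theorem cons_of_head {s : S} {w : List S} (h : w.head? = some s) : w = s :: w.tail := by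
  cases w with
  | nil => simp at h
  | cons a t => simp at h; subst h; rfl

@[simp] theorem lm_lm (s : S) (h : V) : lm s (lm s h) = h := by
  apply Subtype.ext
  show lml s (lml s h.1) = h.1
  by_cases h1 : h.1.head? = some s
  · have h2 := cons_of_head h1
    have h3 : h.1.tail.head? ≠ some s := by
      have := h.2
      rw [h2] at this
      exact this.1
    rw [lml_of_eq h1, lml_of_ne h3, ← h2]
  · rw [lml_of_ne h1, lml_of_eq (by simp)]
    rfl

theorem br_lm (s : S) (h : V) : br (lm s h) = some s ↔ br h ≠ some s := by
  show (lml s h.1).head? = some s ↔ h.1.head? ≠ some s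
  by_cases h1 : h.1.head? = some s
  · have h2 := cons_of_head h1
    have h3 : h.1.tail.head? ≠ some s := by
      have := h.2
      rw [h2] at this
      exact this.1
    rw [lml_of_eq h1]
    exact ⟨fun h4 => absurd h4 h3, fun h4 => absurd h1 h4⟩
  · rw [lml_of_ne h1]
    simp [h1]

theorem len_lm_of_eq {s : S} {h : V} (h1 : br h = some s) : len h = len (lm s h) + 1 := by
  show h.1.length = (lml s h.1).length + 1
  rw [lml_of_eq h1]
  conv_lhs => rw [cons_of_head h1]
  rfl

theorem len_lm_of_ne {s : S} {h : V} (h1 : br h ≠ some s) : len (lm s h) = len h + 1 := by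
  show (lml s h.1).length = h.1.length + 1
  rw [lml_of_ne h1]
  rfl

def lmEquiv (s : S) : V ≃ V := ⟨lm s, lm s, lm_lm s, lm_lm s⟩

def act (h u : V) : V := h.1.foldr lm u

@[simp] theorem act_one_left (u : V) : act one u = u := rfl

theorem foldr_one (l : List S) (hl : Red l) : (l.foldr lm one).1 = l := by
  induction l with
  | nil => rfl
  | cons s t ih =>
    show lml s (t.foldr lm one).1 = s :: t
    rw [ih hl.2, lml_of_ne hl.1]

@[simp] theorem act_one_right (h : V) : act h one = h := Subtype.ext (foldr_one h.1 h.2)

theorem act_lm (s : S) (h u : V) : act (lm s h) u = lm s (act h u) := by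
  show (lml s h.1).foldr lm u = lm s (h.1.foldr lm u)
  by_cases h1 : h.1.head? = some s
  · rw [lml_of_eq h1]
    conv_rhs => rw [cons_of_head h1]
    rw [List.foldr_cons, lm_lm]
  · rw [lml_of_ne h1, List.foldr_cons]

theorem act_foldr (l : List S) (v u : V) : act (l.foldr lm v) u = l.foldr lm (act v u) := by
  induction l with
  | nil => rfl
  | cons s t ih => rw [List.foldr_cons, act_lm, ih, List.foldr_cons]

theorem act_assoc (h v u : V) : act (act h v) u = act h (act v u) := act_foldr h.1 v u

/-- crossing the root costs the distances to the root -/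
theorem cross_len (l : List S) (hl : Red l) (u : V) (hb : l = [] ∨ br (l.foldr lm u) ≠ l.head?) :
    l.length + len (l.foldr lm u) ≤ len u := by
  induction l with
  | nil => simp
  | cons s t ih =>
    have hb' : br (List.foldr lm u (s :: t)) ≠ some s := by
      rcases hb with h | h
      · simp at h
      · exact h
    rw [List.foldr_cons] at hb' ⊢
    have h1 : br (t.foldr lm u) = some s := by
      by_contra h2
      exact hb' ((br_lm s _).2 h2)
    have h3 := len_lm_of_eq h1
    have h4 := ih hl.2 (by
      cases t with
      | nil => exact Or.inl rfl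
      | cons a t' =>
        right
        rw [h1]
        exact fun h => hl.1 h.symm)
    rw [List.length_cons]
    omega

theorem act_len {h u : V} (hb : h = one ∨ br (act h u) ≠ br h) :
    len h + len (act h u) ≤ len u := by
  refine cross_len h.1 h.2 u ?_
  rcases hb with h1 | h1
  · left; rw [h1]; rfl
  · right; exact h1

theorem rcancel : ∀ (l : List S) (hl : Red l) (h h' : V),
    act h ⟨l, hl⟩ = act h' ⟨l, hl⟩ → h = h' := by
  intro l
  induction l with
  | nil =>
    intro hl h h' he
    have h1 : (⟨[], hl⟩ : V) = one := rfl
    rwa [h1, act_one_right, act_one_right] at he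
  | cons s t ih =>
    intro hl h h' he
    have h1 : (⟨s :: t, hl⟩ : V) = act ⟨[s], by simp [Red]⟩ ⟨t, hl.2⟩ := by
      apply Subtype.ext
      show s :: t = lml s t
      rw [lml_of_ne hl.1]
    rw [h1, ← act_assoc, ← act_assoc] at he
    have h2 := ih hl.2 _ _ he
    have h3 : act (⟨[s], by simp [Red]⟩ : V) ⟨[s], by simp [Red]⟩ = one := by
      apply Subtype.ext
      show lml s [s] = []
      rw [lml_of_eq (by simp)]; rfl
    have h4 := congrArg (fun z => act z ⟨[s], by simp [Red]⟩) h2
    simp only [act_assoc, h3, act_one_right] at h4
    exact h4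

theorem act_right_cancel {h h' u : V} (he : act h u = act h' u) : h = h' :=
  rcancel u.1 u.2 h h' he

theorem br_eq_none {h : V} : br h = none ↔ h = one := by
  constructor
  · intro h1
    apply Subtype.ext
    exact List.head?_eq_none_iff.1 h1
  · rintro rfl; rfl

theorem len_pos_of_br {h : V} {s : S} (h1 : br h = some s) : 1 ≤ len h := by
  have := len_lm_of_eq h1
  omega

theorem len_one : len one = 0 := rfl

theorem len_eq_zero {h : V} (h1 : len h = 0) : h = one := by
  apply Subtype.ext
  exact List.length_eq_zero_iff.1 h1

end V11256.PP
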