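import Mathlib
import Pool.Agent.V11256.PP.A

/-!
# Plain paradoxes, part B: the space of labelled trees, path maps
-/

namespace V11256.PP

/-- vertex labels: three outgoing and two incoming generators -/
def Lab : Type := {p : Finset S × Finset S // p.1.card = 3 ∧ p.2.card = 2 ∧ Disjoint p.1 p.2}

instance : Fintype Lab := by unfold Lab; infer_instance
instance : DecidableEq Lab := by unfold Lab; infer_instance
instance : TopologicalSpace Lab := ⊥
instance : DiscreteTopology Lab := ⟨rfl⟩
instance : MeasurableSpace Lab := ⊤
instance : DiscreteMeasurableSpace Lab := ⟨fun _ => trivial⟩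
instance : MeasurableSpace V := ⊤
instance : DiscreteMeasurableSpace V := ⟨fun _ => trivial⟩
instance : Countable V := Subtype.countable

def Lab.O (ℓ : Lab) : Finset S := ℓ.1.1
def Lab.I (ℓ : Lab) : Finset S := ℓ.1.2

theorem Lab.disj (ℓ : Lab) : Disjoint ℓ.O ℓ.I := ℓ.2.2.2
theorem Lab.cardO (ℓ : Lab) : ℓ.O.card = 3 := ℓ.2.1
theorem Lab.cardI (ℓ : Lab) : ℓ.I.card = 2 := ℓ.2.2.1

/-- status of a generator: outgoing `1`, incoming `-1`, inactive `0` -/
def st (ℓ : Lab) (s : S) : ℤ := if s ∈ ℓ.O then 1 else if s ∈ ℓ.I then -1 else 0

theorem st_O {ℓ : Lab} {s : S} : st ℓ s = 1 ↔ s ∈ ℓ.O := by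
  unfold st; split_ifs <;> simp_all

theorem st_I {ℓ : Lab} {s : S} : st ℓ s = -1 ↔ s ∈ ℓ.I := by
  unfold st
  split_ifs with h1 h2
  · have := Finset.disjoint_left.1 ℓ.disj h1
    simp [this]
  · simp [h2]
  · simp [h2]

theorem st_ne {ℓ : Lab} {s : S} : st ℓ s ≠ 0 ↔ s ∈ ℓ.O ∨ s ∈ ℓ.I := by
  unfold st; split_ifs <;> simp_all

def gen (s : S) : V := ⟨[s], by simp [Red]⟩

@[simp] theorem act_gen (s : S) (u : V) : act (gen s) u = lm s u := rfl

/-- oriented labelled trees -/
abbrev X : Type := {x : V → Lab // ∀ (h : V) (s : S), st (x (act h (gen s))) s = - st (x h) s}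

/-- change of root -/
def R (v : V) (x : X) : X := ⟨fun h => x.1 (act v h), fun h s => by
  show st (x.1 (act v (act h (gen s)))) s = - st (x.1 (act v h)) s
  rw [← act_assoc]; exact x.2 (act v h) s⟩

theorem R_apply (v : V) (x : X) (h : V) : (R v x).1 h = x.1 (act v h) := rfl

@[simp] theorem R_one (x : X) : R one x = x := rfl

theorem R_act (h v : V) (x : X) : R (act h v) x = R v (R h x) := by
  apply Subtype.ext
  funext u
  show x.1 (act (act h v) u) = x.1 (act h (act v u))
  rw [act_assoc]

theorem gen_gen (s : S) : act (gen s) (gen s) = one := by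
  apply Subtype.ext
  show lml s [s] = []
  rw [lml_of_eq (by simp)]; rfl

theorem R_gen_gen (s : S) (x : X) : R (gen s) (R (gen s) x) = x := by
  rw [← R_act, gen_gen, R_one]

theorem st_gen (x : X) (s : S) : st (x.1 (gen s)) s = - st (x.1 one) s := x.2 one s

/-- the involution attached to a generator: cross the edge if it is active -/
def hat (s : S) (x : X) : X := if st (x.1 one) s ≠ 0 then R (gen s) x else x

theorem hat_hat (s : S) (x : X) : hat s (hat s x) = x := by
  unfold hat
  by_cases h : st (x.1 one) s ≠ 0
  · have h2 : st ((R (gen s) x).1 one) s ≠ 0 := by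
      rw [R_apply, act_one_right, st_gen]
      simpa using h
    rw [if_pos h, if_pos h2, R_gen_gen]
  · rw [if_neg h, if_neg h]

theorem measurable_R (v : V) : Measurable (R v) := by
  apply Measurable.subtype_mk
  rw [measurable_pi_iff]
  intro h
  exact (measurable_pi_apply (act v h)).comp measurable_subtype_coe

theorem measurable_R_var {δ : X → V} (hδ : Measurable δ) : Measurable (fun x => R (δ x) x) := by
  have h1 : Measurable (fun p : V × X => R p.1 p.2) :=
    measurable_from_prod_countable_right (fun v => measurable_R v)
  exact h1.comp (hδ.prodMk measurable_id)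

theorem measurable_at (h : V) : Measurable (fun x : X => x.1 h) :=
  (measurable_pi_apply h).comp measurable_subtype_coe

theorem len_lm_le (s : S) (h : V) : len (lm s h) ≤ len h + 1 := by
  by_cases h1 : br h = some s
  · have := len_lm_of_eq h1; omega
  · rw [len_lm_of_ne h1]

theorem len_foldr (l : List S) (u : V) : len (l.foldr lm u) ≤ l.length + len u := by
  induction l with
  | nil => simp
  | cons s t ih =>
    rw [List.foldr_cons, List.length_cons]
    have := len_lm_le s (t.foldr lm u)
    omega

theorem len_act (h u : V) : len (act h u) ≤ len h + len u := len_foldr h.1 u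

/-- measurable maps giving the displacement of a bounded move along active edges -/
structure PM (D : ℕ) (δ : X → V) : Prop where
  meas : Measurable δ
  bdd : ∀ x, len (δ x) ≤ D
  path : ∀ (x : X) (h : V) (s : S), ¬ (br h = some s ↔ br (act h (δ (R h x))) = some s) →
    st (x.1 one) s ≠ 0

theorem PM.mono {D D' : ℕ} (hD : D ≤ D') {δ : X → V} (h : PM D δ) : PM D' δ :=
  ⟨h.meas, fun x => (h.bdd x).trans hD, h.path⟩

theorem PM_one : PM 0 (fun _ => one) :=
  ⟨measurable_const, fun _ => le_rfl, fun x h s hs => by simp at hs⟩

theorem PM_hat (r : S) : PM 1 (fun x => if st (x.1 one) r ≠ 0 then gen r else one) := by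
  refine ⟨?_, ?_, ?_⟩
  · refine Measurable.ite ?_ measurable_const measurable_const
    have : Measurable (fun x : X => st (x.1 one) r) :=
      (measurable_of_finite (fun ℓ : Lab => st ℓ r)).comp (measurable_at one)
    exact this (MeasurableSet.of_discrete (s := {z : ℤ | z ≠ 0}))
  · intro x
    split_ifs
    · exact le_rfl
    · exact Nat.zero_le _
  · intro x h s hs
    by_cases h1 : st ((R h x).1 one) r ≠ 0
    · rw [if_pos h1] at hs
      rw [R_apply, act_one_right] at h1
      by_cases hh : h = one
      · subst hh
        rw [act_one_left] at hs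
        have h2 : s = r := by
          by_contra hne
          apply hs
          have : br (gen r) = some r := rfl
          rw [this]
          constructor
          · intro h3; exact absurd h3 (by simp [br, one])
          · intro h3
            simp only [Option.some.injEq] at h3
            exact absurd h3.symm hne
        rw [h2]; exact h1
      · have hne : br (act h (gen r)) ≠ br h := by
          intro h3
          rw [h3] at hs
          exact hs Iff.rfl
        have h3 := act_len (Or.inr hne)
        have h4 : len (gen r) = 1 := rfl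
        have h5 : 1 ≤ len h := by
          by_contra h6
          exact hh (len_eq_zero (by omega))
        have h6 : len (act h (gen r)) = 0 := by omega
        have h7 : act h (gen r) = one := len_eq_zero h6
        have h8 : h = gen r := by
          refine act_right_cancel (u := gen r) ?_
          rw [h7, gen_gen]
        subst h8
        have h9 : s = r := by
          by_contra hne'
          apply hs
          rw [h7]
          have : br (gen r) = some r := rfl
          rw [this]
          constructor
          · intro h3
            simp only [Option.some.injEq] at h3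
            exact absurd h3.symm hne'
          · intro h3; exact absurd h3 (by simp [br, one])
        subst h9
        rw [st_gen] at h1
        simpa using h1
    · rw [if_neg h1, act_one_right] at hs
      exact absurd Iff.rfl hs

theorem PM.comp {D D' : ℕ} {v v' : X → V} (h : PM D v) (h' : PM D' v') :
    PM (D' + D) (fun x => act (v' x) (v (R (v' x) x))) := by
  refine ⟨?_, ?_, ?_⟩
  · have h1 : Measurable (fun p : V × V => act p.1 p.2) := measurable_of_countable _
    exact h1.comp (h'.meas.prodMk (h.meas.comp (measurable_R_var h'.meas)))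
  · intro x
    exact (len_act _ _).trans (Nat.add_le_add (h'.bdd _) (h.bdd _))
  · intro x u s hs
    rw [← act_assoc, ← R_act] at hs
    by_cases h1 : (br u = some s ↔ br (act u (v' (R u x))) = some s)
    · refine h.path x (act u (v' (R u x))) s ?_
      intro h2
      exact hs (h1.trans h2)
    · exact h'.path x u s h1

/-! ### the group action -/

def hatPerm (s : S) : Equiv.Perm X := ⟨hat s, hat s, hat_hat s, hat_hat s⟩

def toPerm : FreeGroup S →* Equiv.Perm X := FreeGroup.lift hatPerm

instance : MulAction (FreeGroup S) X := MulAction.compHom X toPerm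

theorem smul_def (γ : FreeGroup S) (x : X) : γ • x = toPerm γ x := rfl

theorem exists_PM (γ : FreeGroup S) :
    ∃ (D : ℕ) (δ : X → V), PM D δ ∧ ∀ x, γ • x = R (δ x) x := by
  induction γ using FreeGroup.induction_on with
  | C1 => exact ⟨0, _, PM_one, fun x => by rw [one_smul, R_one]⟩
  | of s =>
    refine ⟨1, _, PM_hat s, fun x => ?_⟩
    rw [smul_def]
    show FreeGroup.lift hatPerm (FreeGroup.of s) x = _
    rw [FreeGroup.lift_apply_of]
    show hat s x = _
    unfold hat
    split_ifs
    · rfl
    · rfl
  | inv_of s _ =>
    refine ⟨1, _, PM_hat s, fun x => ?_⟩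
    rw [smul_def]
    show FreeGroup.lift hatPerm (FreeGroup.of s)⁻¹ x = _
    rw [map_inv, FreeGroup.lift_apply_of]
    show hat s x = _
    unfold hat
    split_ifs
    · rfl
    · rfl
  | mul γ γ' h h' =>
    obtain ⟨D, v, hv, h1⟩ := h
    obtain ⟨D', v', hv', h1'⟩ := h'
    refine ⟨D' + D, _, hv.comp hv', fun x => ?_⟩
    rw [mul_smul, h1', h1, R_act]

theorem measurable_smul' (γ : FreeGroup S) : Measurable (fun x : X => γ • x) := by
  obtain ⟨D, δ, h1, h2⟩ := exists_PM γ
  have : (fun x : X => γ • x) = fun x => R (δ x) x := funext h2
  rw [this]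
  exact measurable_R_var h1.meas

end V11256.PP
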