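import Mathlib
import Pool.Agent.V11256.PP.B

/-!
# Plain paradoxes, part C: flows of old balls
-/

namespace V11256.PP

/-- net contribution of a ball moving from `h` to `t` to the flow of balls of age at least `k`
from the root to its neighbour in direction `s` -/
def ph (k : ℕ) (s : S) (h t : V) : ℤ :=
  (if br h ≠ some s ∧ br t = some s ∧ k ≤ len h + 1 then 1 else 0) -
  (if br h = some s ∧ br t ≠ some s ∧ k ≤ len h then 1 else 0)

theorem ph_lm (k : ℕ) (s : S) (h t : V) : ph k s (lm s h) (lm s t) = - ph k s h t := by
  unfold ph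
  by_cases h1 : br h = some s
  · have h2 : br (lm s h) ≠ some s := fun h3 => (br_lm s h).1 h3 h1
    have h3 := len_lm_of_eq h1
    by_cases h4 : br t = some s
    · have h5 : br (lm s t) ≠ some s := fun h3 => (br_lm s t).1 h3 h4
      simp [h1, h2, h4, h5]
    · have h5 : br (lm s t) = some s := (br_lm s t).2 h4
      simp [h1, h2, h4, h5, h3]
  · have h2 : br (lm s h) = some s := (br_lm s h).2 h1
    have h3 := len_lm_of_ne h1
    by_cases h4 : br t = some s
    · have h5 : br (lm s t) ≠ some s := fun h3 => (br_lm s t).1 h3 h4
      simp [h1, h2, h4, h5, h3]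
    · have h5 : br (lm s t) = some s := (br_lm s t).2 h4
      simp [h1, h2, h4, h5]

theorem ph_zero_one (s : S) (h t : V) : ph 0 s h t = ph 1 s h t := by
  unfold ph
  by_cases h1 : br h = some s
  · have := len_pos_of_br h1
    simp [h1, this]
  · simp [h1]

theorem ph_ne {k : ℕ} {s : S} {h t : V} (hne : ph k s h t ≠ 0) : br t ≠ br h := by
  intro he
  apply hne
  unfold ph
  rw [he]
  by_cases h1 : br h = some s <;> simp [h1]

section

variable {D : ℕ} (δ : Bool → X → V)

/-- the target of the ball `b` sitting at the vertex `h` -/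
def tg (x : X) (b : Bool) (h : V) : V := act h (δ b (R h x))

/-- the net flow of old balls from the root in direction `s` -/
noncomputable def fl (k : ℕ) (s : S) (x : X) : ℤ := ∑ᶠ h : V, ∑ b : Bool, ph k s h (tg δ x b h)

theorem tg_gen (s : S) (x : X) (b : Bool) (h : V) :
    tg δ (R (gen s) x) b (lm s h) = lm s (tg δ x b h) := by
  unfold tg
  rw [← R_act, act_gen, lm_lm, act_lm]

theorem fl_gen (k : ℕ) (s : S) (x : X) : fl δ k s (R (gen s) x) = - fl δ k s x := by
  unfold fl
  rw [← finsum_comp_equiv (lmEquiv s), ← finsum_neg_distrib]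
  congr 1
  funext h
  show ∑ b : Bool, ph k s (lm s h) (tg δ (R (gen s) x) b (lm s h)) = _
  simp_rw [tg_gen, ph_lm]
  rw [Finset.sum_neg_distrib]

theorem fl_zero_one (s : S) (x : X) : fl δ 0 s x = fl δ 1 s x := by
  unfold fl
  simp_rw [ph_zero_one]

theorem finite_ball (D : ℕ) : {h : V | len h ≤ D}.Finite := by
  have h1 : {l : List S | l.length ≤ D}.Finite := List.finite_length_le S D
  exact Set.Finite.preimage (f := Subtype.val) Subtype.val_injective.injOn h1

noncomputable def ball (D : ℕ) : Finset V := (finite_ball D).toFinset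

theorem mem_ball {D : ℕ} {h : V} : h ∈ ball D ↔ len h ≤ D := by
  unfold ball; rw [Set.Finite.mem_toFinset]; rfl

variable {δ}

theorem tg_len (hδ : ∀ b, PM D (δ b)) {x : X} {b : Bool} {h : V}
    (hne : br (tg δ x b h) ≠ br h) : len h + len (tg δ x b h) ≤ D :=
  (act_len (Or.inr hne)).trans ((hδ b).bdd _)

theorem fl_eq_sum (hδ : ∀ b, PM D (δ b)) (k : ℕ) (s : S) (x : X) :
    fl δ k s x = ∑ h ∈ ball D, ∑ b : Bool, ph k s h (tg δ x b h) := by
  unfold fl
  apply finsum_eq_sum_of_support_subset
  intro h hh
  rw [Finset.mem_coe, mem_ball]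
  by_contra hlt
  apply hh
  apply Finset.sum_eq_zero
  intro b _
  by_contra hne
  have := tg_len hδ (ph_ne hne)
  omega

theorem fl_old (hδ : ∀ b, PM D (δ b)) {k : ℕ} (hk : D < k) (s : S) (x : X) :
    fl δ k s x = 0 := by
  unfold fl
  have : ∀ h : V, ∑ b : Bool, ph k s h (tg δ x b h) = 0 := by
    intro h
    apply Finset.sum_eq_zero
    intro b _
    by_contra hne
    have h1 := tg_len hδ (ph_ne hne)
    unfold ph at hne
    by_cases h2 : br h = some s
    · rw [if_neg (by simp [h2]), if_neg (by omega)] at hne
      simp at hne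
    · by_cases h3 : br (tg δ x b h) = some s
      · have h4 := len_pos_of_br h3
        rw [if_neg (by omega), if_neg (by simp [h2])] at hne
        simp at hne
      · rw [if_neg (by simp [h3]), if_neg (by simp [h2])] at hne
        simp at hne
  simp_rw [this]
  exact finsum_zero

theorem measurable_fl (hδ : ∀ b, PM D (δ b)) (k : ℕ) (s : S) : Measurable (fl δ k s) := by
  have h1 : fl δ k s = fun x => ∑ h ∈ ball D, ∑ b : Bool, ph k s h (tg δ x b h) :=
    funext (fl_eq_sum hδ k s)
  rw [h1]
  refine Finset.measurable_fun_sum _ fun h _ => Finset.measurable_fun_sum _ fun b _ => ?_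
  have h2 : Measurable (fun x => tg δ x b h) := by
    have h3 : Measurable (fun v : V => act h v) := measurable_of_countable _
    exact h3.comp ((hδ b).meas.comp (measurable_R h))
  have h4 : Measurable (fun t : V => ph k s h t) := measurable_of_countable _
  exact h4.comp h2

/-- contribution of one ball at the root -/
theorem ball_ineq (k : ℕ) (O I : Finset S) (hOI : Disjoint O I) {h t : V}
    (hact : ∀ s, ¬ (br h = some s ↔ br t = some s) → s ∈ O ∨ s ∈ I) :
    (if h = one ∧ t ≠ one ∧ k = 0 then (1 : ℤ) else 0) -
      (if h ≠ one ∧ t = one then 1 else 0) ≤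
    ∑ s ∈ O, ph (k + 1) s h t + ∑ s ∈ I, ph k s h t := by
  rcases hbh : br h with _ | r
  · have hh : h = one := br_eq_none.1 hbh
    subst hh
    rcases hbt : br t with _ | a
    · have ht : t = one := br_eq_none.1 hbt
      subst ht
      have : ∀ j s, ph j s one one = 0 := by
        intro j s
        by_contra hne
        exact ph_ne hne rfl
      simp [this]
    · have ht : t ≠ one := by rintro rfl; rw [hbh] at hbt; cases hbt
      have h1 : ∀ j s, ph j s one t = if s = a then (if j ≤ 1 then 1 else 0) else 0 := by
        intro j s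
        unfold ph
        rw [hbh, hbt]
        have : len one = 0 := rfl
        rw [this]
        by_cases hs : s = a
        · subst hs; simp
        · have : ¬ (a = s) := fun h => hs h.symm
          simp [hs, this]
      simp only [h1, Finset.sum_ite_eq']
      rcases hact a (by rw [hbh, hbt]; simp) with h2 | h2
      · have h3 : a ∉ I := Finset.disjoint_left.1 hOI h2
        rw [if_pos h2, if_neg h3]
        by_cases hk : k = 0
        · subst hk; simp [ht]
        · simp [hk]
      · have h3 : a ∉ O := Finset.disjoint_right.1 hOI h2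
        rw [if_pos h2, if_neg h3]
        by_cases hk : k = 0
        · subst hk; simp [ht]
        · rw [if_neg (by simp [hk])]
          simp only [ne_eq, not_true_eq_false, false_and, if_false]
          split_ifs <;> simp
  · have hh : h ≠ one := by rintro rfl; cases hbh
    rcases hbt : br t with _ | a
    · have ht : t = one := br_eq_none.1 hbt
      have h1 : ∀ j s, ph j s h t = - if s = r then (if j ≤ len h then 1 else 0) else 0 := by
        intro j s
        unfold ph
        rw [hbh, hbt]
        by_cases hs : s = r
        · subst hs; simp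
        · have : ¬ (r = s) := fun h => hs h.symm
          simp [hs, this]
      simp only [h1, Finset.sum_neg_distrib, Finset.sum_ite_eq']
      rw [if_neg (by simp [hh]), if_pos ⟨hh, ht⟩]
      rcases hact r (by rw [hbh, hbt]; simp) with h2 | h2
      · have h3 : r ∉ I := Finset.disjoint_left.1 hOI h2
        rw [if_pos h2, if_neg h3]
        split_ifs <;> simp
      · have h3 : r ∉ O := Finset.disjoint_right.1 hOI h2
        rw [if_pos h2, if_neg h3]
        split_ifs <;> simp
    · have ht : t ≠ one := by rintro rfl; cases hbt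
      have h0 : (if h = one ∧ t ≠ one ∧ k = 0 then (1 : ℤ) else 0) -
          (if h ≠ one ∧ t = one then 1 else 0) = 0 := by
        rw [if_neg (by simp [hh]), if_neg (by simp [ht])]; rfl
      rw [h0]
      by_cases har : a = r
      · subst har
        have : ∀ j s, ph j s h t = 0 := by
          intro j s
          by_contra hne
          exact ph_ne hne (by rw [hbh, hbt])
        simp [this]
      · have h1 : ∀ j s, ph j s h t = (if s = a then (if j ≤ len h + 1 then 1 else 0) else 0) -
            if s = r then (if j ≤ len h then 1 else 0) else 0 := by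
          intro j s
          unfold ph
          rw [hbh, hbt]
          by_cases hs : s = a
          · subst hs
            have : ¬ (r = s) := fun h => har h.symm
            simp [this, har]
          · have h5 : ¬ (a = s) := fun h => hs h.symm
            by_cases hs' : s = r
            · subst hs'
              simp [hs, h5]
            · have : ¬ (r = s) := fun h => hs' h.symm
              simp [hs, hs', h5, this]
        simp only [h1, Finset.sum_sub_distrib, Finset.sum_ite_eq']
        have ha := hact a (by
          rw [hbh, hbt]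
          simp only [Option.some.injEq, iff_true]
          exact fun h => har h.symm)
        have hr := hact r (by
          rw [hbh, hbt]
          simp only [Option.some.injEq, true_iff]
          exact har)
        rcases ha with h2 | h2 <;> rcases hr with h3 | h3
        · rw [if_pos h2, if_neg (Finset.disjoint_left.1 hOI h2), if_pos h3,
            if_neg (Finset.disjoint_left.1 hOI h3)]
          split_ifs <;> first | omega | simp
        · rw [if_pos h2, if_neg (Finset.disjoint_left.1 hOI h2), if_pos h3,
            if_neg (Finset.disjoint_right.1 hOI h3)]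
          split_ifs <;> first | omega | simp
        · rw [if_pos h2, if_neg (Finset.disjoint_right.1 hOI h2), if_pos h3,
            if_neg (Finset.disjoint_left.1 hOI h3)]
          split_ifs <;> first | omega | simp
        · rw [if_pos h2, if_neg (Finset.disjoint_right.1 hOI h2), if_pos h3,
            if_neg (Finset.disjoint_right.1 hOI h3)]
          split_ifs <;> first | omega | simp

/-- the flow inequality at the root -/
theorem vertex_ineq (hδ : ∀ b, PM D (δ b))
    (hinj : ∀ (x y : X) (b c : Bool), R (δ b x) x = R (δ c y) y → x = y ∧ b = c)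
    (k : ℕ) (x : X) :
    (if k = 0 then (1 : ℤ) else -1) ≤
      ∑ s ∈ (x.1 one).O, fl δ (k + 1) s x + ∑ s ∈ (x.1 one).I, fl δ k s x := by
  -- injectivity of the targets
  have htg : ∀ h h' b c, tg δ x b h = tg δ x c h' → h = h' ∧ b = c := by
    intro h h' b c he
    have h1 : R (δ b (R h x)) (R h x) = R (δ c (R h' x)) (R h' x) := by
      rw [← R_act, ← R_act]
      exact congrArg (fun v => R v x) he
    obtain ⟨h2, h3⟩ := hinj _ _ _ _ h1
    subst h3
    refine ⟨?_, rfl⟩
    unfold tg at he
    rw [← h2] at he
    exact act_right_cancel he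
  set g : V → Bool → ℤ := fun h b =>
    (if h = one ∧ tg δ x b h ≠ one ∧ k = 0 then (1 : ℤ) else 0) -
      (if h ≠ one ∧ tg δ x b h = one then 1 else 0) with hg
  have h1 : ∑ h ∈ ball D, ∑ b : Bool, g h b ≤
      ∑ s ∈ (x.1 one).O, fl δ (k + 1) s x + ∑ s ∈ (x.1 one).I, fl δ k s x := by
    have h2 : ∑ s ∈ (x.1 one).O, fl δ (k + 1) s x + ∑ s ∈ (x.1 one).I, fl δ k s x =
        ∑ h ∈ ball D, ∑ b : Bool, (∑ s ∈ (x.1 one).O, ph (k + 1) s h (tg δ x b h) +
          ∑ s ∈ (x.1 one).I, ph k s h (tg δ x b h)) := by
      simp_rw [fl_eq_sum hδ]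
      rw [Finset.sum_comm, Finset.sum_comm (s := (x.1 one).I), ← Finset.sum_add_distrib]
      refine Finset.sum_congr rfl fun h _ => ?_
      rw [Finset.sum_comm, Finset.sum_comm (s := (x.1 one).I), ← Finset.sum_add_distrib]
    rw [h2]
    refine Finset.sum_le_sum fun h _ => Finset.sum_le_sum fun b _ => ?_
    refine ball_ineq k _ _ (x.1 one).disj ?_
    intro s hs
    exact st_ne.1 ((hδ b).path x h s hs)
  refine le_trans ?_ h1
  have hone : one ∈ ball D := mem_ball.2 (Nat.zero_le _)
  have h3 : ∑ h ∈ ball D, ∑ b : Bool, g h b =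
      (∑ b : Bool, if tg δ x b one ≠ one ∧ k = 0 then (1 : ℤ) else 0) -
      ∑ p ∈ ball D ×ˢ (Finset.univ : Finset Bool),
        (if p.1 ≠ one ∧ tg δ x p.2 p.1 = one then 1 else 0) := by
    simp only [hg, Finset.sum_sub_distrib]
    congr 1
    · rw [Finset.sum_eq_single one]
      · simp
      · intro h _ hne
        simp [hne]
      · intro h; exact absurd hone h
    · rw [Finset.sum_product]
  rw [h3]
  set Q := ∑ p ∈ ball D ×ˢ (Finset.univ : Finset Bool),
        (if p.1 ≠ one ∧ tg δ x p.2 p.1 = one then (1 : ℤ) else 0) with hQ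
  have hQ2 : Q = (((ball D ×ˢ (Finset.univ : Finset Bool)).filter
      (fun p => p.1 ≠ one ∧ tg δ x p.2 p.1 = one)).card : ℤ) := by
    rw [hQ, Finset.sum_boole]
  have hQ1 : Q ≤ 1 := by
    rw [hQ2]
    norm_cast
    rw [Finset.card_le_one]
    intro p hp q hq
    rw [Finset.mem_filter] at hp hq
    obtain ⟨h5, h6⟩ := htg p.1 q.1 p.2 q.2 (by rw [hp.2.2, hq.2.2])
    exact Prod.ext h5 h6
  have hP : 0 ≤ ∑ b : Bool, if tg δ x b one ≠ one ∧ k = 0 then (1 : ℤ) else 0 :=
    Finset.sum_nonneg fun b _ => by split_ifs <;> simp
  by_cases hk : k = 0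
  · rw [if_pos hk]
    subst hk
    rw [Fintype.sum_bool]
    by_cases ha : ∃ b, tg δ x b one = one
    · obtain ⟨b, hb⟩ := ha
      have hQ0 : Q = 0 := by
        rw [hQ2]
        norm_cast
        rw [Finset.card_eq_zero, Finset.filter_eq_empty_iff]
        rintro p _ ⟨h5, h6⟩
        exact h5 (htg p.1 one p.2 b (by rw [h6, hb])).1
      have hnb : tg δ x (!b) one ≠ one := by
        intro h7
        have := (htg one one (!b) b (by rw [h7, hb])).2
        cases b <;> simp at this
      rw [hQ0]
      cases b
      · simp only [Bool.not_false] at hnb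
        simp [hnb, hb]
      · simp only [Bool.not_true] at hnb
        simp [hnb, hb]
    · push Not at ha
      simp only [ne_eq, ha]
      simp only [not_false_eq_true, and_self, if_true]
      omega
  · rw [if_neg hk]
    omega

end

end V11256.PP
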