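import Mathlib
import Pool.Agent.V11256.PP.C
import Pool.Agent.V11256.BD.H

/-!
# Plain paradoxes, part D: causal strategies and gluing
-/

namespace V11256.PP

/-! ### parents in the tree -/

theorem Red.right {l u : List S} (h : Red (l ++ u)) : Red u := by
  induction l with
  | nil => exact h
  | cons a t ih => exact ih h.2

theorem Red.left {l u : List S} (h : Red (l ++ u)) : Red l := by
  induction l with
  | nil => trivial
  | cons a t ih =>
    refine ⟨?_, ih h.2⟩
    intro h1
    apply h.1
    cases t with
    | nil => simp at h1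
    | cons b t' => simpa using h1

theorem Red.concat {l : List S} {s : S} (h : Red l) (hs : l.getLast? ≠ some s) :
    Red (l ++ [s]) := by
  induction l with
  | nil => exact ⟨by simp, trivial⟩
  | cons a t ih =>
    cases t with
    | nil =>
      refine ⟨?_, by simp, trivial⟩
      simp at hs ⊢
      exact fun h => hs h.symm
    | cons b t' =>
      refine ⟨?_, ih h.2 (by simpa using hs)⟩
      have := h.1
      simpa using this

theorem foldr_append (l : List S) (u : V) (h : Red (l ++ u.1)) : (l.foldr lm u).1 = l ++ u.1 := by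
  induction l with
  | nil => rfl
  | cons a t ih =>
    show lml a (t.foldr lm u).1 = _
    rw [ih h.2]
    exact lml_of_ne h.1

theorem eq_nil_or_concat' (l : List S) : l = [] ∨ ∃ t s, l = t ++ [s] := by
  rcases List.eq_nil_or_concat l with h | ⟨t, s, h⟩
  · exact Or.inl h
  · exact Or.inr ⟨t, s, by simpa using h⟩

theorem red_dropLast {l : List S} (h : Red l) : Red l.dropLast := by
  rcases eq_nil_or_concat' l with h1 | ⟨t, s, h1⟩
  · subst h1; trivial
  · subst h1
    simp only [List.dropLast_concat]
    exact h.left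

/-- the parent of a vertex -/
def par (h : V) : V := ⟨h.1.dropLast, red_dropLast h.2⟩

/-- the last letter of a vertex -/
def lst (h : V) : S := h.1.getLast?.getD 0

/-- the child of a vertex -/
theorem ne_one_iff {h : V} : h ≠ one ↔ ∃ (t : V) (s : S) (h1 : Red (t.1 ++ [s])),
    h = ⟨t.1 ++ [s], h1⟩ := by
  constructor
  · intro h1
    rcases eq_nil_or_concat' h.1 with h2 | ⟨t, s, h2⟩
    · exact absurd (Subtype.ext h2) h1
    · have h3 : Red (t ++ [s]) := h2 ▸ h.2
      exact ⟨⟨t, h3.left⟩, s, h3, Subtype.ext h2⟩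
  · rintro ⟨t, s, h1, rfl⟩ h2
    have := congrArg (fun v : V => v.1) h2
    simp [one] at this

theorem par_concat (t : V) (s : S) (h1 : Red (t.1 ++ [s])) : par ⟨t.1 ++ [s], h1⟩ = t := by
  apply Subtype.ext
  show (t.1 ++ [s]).dropLast = t.1
  simp

theorem lst_concat (t : V) (s : S) (h1 : Red (t.1 ++ [s])) : lst ⟨t.1 ++ [s], h1⟩ = s := by
  show (t.1 ++ [s]).getLast?.getD 0 = s
  simp

theorem act_concat (t : V) (s : S) (h1 : Red (t.1 ++ [s])) :
    act t (gen s) = ⟨t.1 ++ [s], h1⟩ :=
  Subtype.ext (foldr_append t.1 (gen s) h1)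

theorem len_concat (t : V) (s : S) (h1 : Red (t.1 ++ [s])) :
    len (⟨t.1 ++ [s], h1⟩ : V) = len t + 1 := by
  show (t.1 ++ [s]).length = t.1.length + 1
  simp

theorem len_par {h : V} (h1 : h ≠ one) : len (par h) + 1 = len h := by
  obtain ⟨t, s, h2, rfl⟩ := ne_one_iff.1 h1
  rw [par_concat, len_concat]

theorem act_par {h : V} (h1 : h ≠ one) : act (par h) (gen (lst h)) = h := by
  obtain ⟨t, s, h2, rfl⟩ := ne_one_iff.1 h1
  rw [par_concat, lst_concat, act_concat _ _ h2]

theorem par_gen (s : S) : par (gen s) = one := rfl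
theorem lst_gen (s : S) : lst (gen s) = s := rfl

theorem neighbour (h : V) (s : S) :
    (h ≠ one ∧ lst h = s ∧ par h = act h (gen s)) ∨
    (act h (gen s) ≠ one ∧ lst (act h (gen s)) = s ∧ par (act h (gen s)) = h) := by
  by_cases h1 : h.1.getLast? = some s
  · left
    have h2 : h ≠ one := by
      rintro rfl; simp [one] at h1
    obtain ⟨t, r, h3, rfl⟩ := ne_one_iff.1 h2
    have h4 : r = s := by simpa using h1
    subst h4
    refine ⟨h2, lst_concat _ _ _, ?_⟩
    rw [par_concat]
    have h5 := act_concat t r h3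
    rw [← h5, act_assoc, gen_gen, act_one_right]
  · right
    have h3 : Red (h.1 ++ [s]) := h.2.concat h1
    rw [act_concat h s h3, par_concat, lst_concat]
    exact ⟨ne_one_iff.2 ⟨h, s, h3, rfl⟩, rfl, rfl⟩

theorem par_lm {s : S} {u : V} (h1 : u ≠ one) (h2 : br u ≠ some s) :
    par (lm s u) = lm s (par u) ∧ lst (lm s u) = lst u ∧ br (par u) ≠ some s := by
  obtain ⟨t, r, h3, rfl⟩ := ne_one_iff.1 h1
  have h5 : (t.1 ++ [r]).head? ≠ some s := h2
  have h6 : br t ≠ some s := by
    intro h7
    apply h5
    have h8 : t.1.head? = some s := h7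
    rw [List.head?_append, h8]
    rfl
  have h4 : (lm s ⟨t.1 ++ [r], h3⟩ : V) = ⟨(lm s t).1 ++ [r], by
      show Red (lml s t.1 ++ [r])
      rw [lml_of_ne h6]
      exact ⟨h5, h3⟩⟩ := by
    apply Subtype.ext
    show lml s (t.1 ++ [r]) = lml s t.1 ++ [r]
    rw [lml_of_ne h6, lml_of_ne h5]
    rfl
  rw [h4, par_concat, par_concat, lst_concat, lst_concat]
  exact ⟨rfl, rfl, h6⟩

/-! ### adjusting labels -/

def labI (r : S) : Lab := ⟨({r + 2, r + 3, r + 4}, {r, r + 1}), by revert r; decide⟩
def labO (r : S) : Lab := ⟨({r, r + 1, r + 2}, {r + 3, r + 4}), by revert r; decide⟩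

instance : Inhabited Lab := ⟨labI 0⟩

theorem ex_neg (r : S) (ℓ : Lab) : ∃ ℓ' : Lab, st ℓ' r = - st ℓ r := by
  by_cases h : r ∈ ℓ.O
  · refine ⟨labI r, ?_⟩
    rw [st_O.2 h]
    exact st_I.2 (by simp [labI, Lab.I])
  · by_cases h' : r ∈ ℓ.I
    · refine ⟨labO r, ?_⟩
      rw [st_I.2 h', neg_neg]
      exact st_O.2 (by simp [labO, Lab.O])
    · refine ⟨ℓ, ?_⟩
      unfold st
      simp [h, h']

theorem ex_O (r : S) : ∃ ℓ' : Lab, st ℓ' r = 1 := ⟨labO r, st_O.2 (by simp [labO, Lab.O])⟩

open Classical in
noncomputable def fx (r : S) (c : ℤ) : Lab :=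
  if h : ∃ ℓ : Lab, st ℓ r = c then h.choose else default

theorem fx_neg (r : S) (ℓ : Lab) : st (fx r (- st ℓ r)) r = - st ℓ r := by
  unfold fx
  rw [dif_pos (ex_neg r ℓ)]
  exact (ex_neg r ℓ).choose_spec

theorem fx_one (r : S) : st (fx r 1) r = 1 := by
  unfold fx
  rw [dif_pos (ex_O r)]
  exact (ex_O r).choose_spec

/-- adjust the proposal `p` for the label of the `r`-child of a vertex labelled `ℓ` -/
noncomputable def adj (r : S) (ℓ p : Lab) : Lab := if st p r = - st ℓ r then p else fx r (- st ℓ r)

theorem adj_st (r : S) (ℓ p : Lab) : st (adj r ℓ p) r = - st ℓ r := by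
  unfold adj
  split_ifs with h
  · exact h
  · exact fx_neg r ℓ

theorem adj_of {r : S} {ℓ p : Lab} (h : st p r = - st ℓ r) : adj r ℓ p = p := if_pos h

/-- adjust the proposal `p` for the root label so that `s` is outgoing -/
noncomputable def rfx (s : S) (p : Lab) : Lab := if st p s = 1 then p else fx s 1

theorem rfx_st (s : S) (p : Lab) : st (rfx s p) s = 1 := by
  unfold rfx
  split_ifs with h
  · exact h
  · exact fx_one s

theorem rfx_of {s : S} {p : Lab} (h : st p s = 1) : rfx s p = p := if_pos h

theorem adj_eq_rfx {s : S} {ℓ : Lab} (h : st ℓ s = -1) (p : Lab) : adj s ℓ p = rfx s p := by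
  unfold adj rfx
  rw [h, neg_neg]

/-! ### causal fixed points -/

abbrev Z : Type := V → Lab

def Causal (F : Z → Z) : Prop :=
  ∀ (m : ℕ) (y y' : Z), (∀ h, len h < m → y h = y' h) → ∀ h, len h ≤ m → F y h = F y' h

def itz (F : Z → Z) : ℕ → Z
  | 0 => fun _ => default
  | n + 1 => F (itz F n)

def fixp (F : Z → Z) : Z := fun h => itz F (len h + 1) h

theorem itz_stable {F : Z → Z} (hF : Causal F) (n : ℕ) :
    ∀ h, len h < n → itz F n h = itz F (n + 1) h := by
  induction n with
  | zero => intro h hh; exact absurd hh (Nat.not_lt_zero _)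
  | succ n ih => intro h hh; exact hF n _ _ ih h (by omega)

theorem itz_fixp {F : Z → Z} (hF : Causal F) {n : ℕ} {h : V} (hn : len h < n) :
    fixp F h = itz F n h := by
  induction n, (show len h + 1 ≤ n from hn) using Nat.le_induction with
  | base => rfl
  | succ n hn' ih => rw [ih (by omega)]; exact itz_stable hF n h (by omega)

theorem fixp_eq {F : Z → Z} (hF : Causal F) (h : V) : fixp F h = F (fixp F) h := by
  show F (itz F (len h)) h = _
  exact (hF (len h) _ _ (fun u hu => itz_fixp hF hu) h le_rfl).symm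

theorem fixp_unique {F : Z → Z} (hF : Causal F) {x : Z} (hx : ∀ h, x h = F x h) :
    x = fixp F := by
  have : ∀ n, ∀ h, len h < n → x h = fixp F h := by
    intro n
    induction n with
    | zero => intro h hh; exact absurd hh (Nat.not_lt_zero _)
    | succ n ih =>
      intro h hh
      rw [hx h, fixp_eq hF h]
      exact hF n _ _ ih h (by omega)
  funext h
  exact this (len h + 1) h (by omega)

/-- the step of the construction of a legal labelling from proposals -/
noncomputable def stepF (c : Lab → Lab) (z : Z → Z) : Z → Z := fun y h =>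
  if h = one then c (z y h) else adj (lst h) (y (par h)) (z y h)

theorem legal_of_step {c : Lab → Lab} {z : Z → Z} {y : Z} (hy : ∀ h, y h = stepF c z y h)
    (h : V) (s : S) : st (y (act h (gen s))) s = - st (y h) s := by
  have key : ∀ u : V, u ≠ one → st (y u) (lst u) = - st (y (par u)) (lst u) := by
    intro u hu
    have h1 := hy u
    unfold stepF at h1
    rw [if_neg hu] at h1
    rw [h1, adj_st]
  rcases neighbour h s with ⟨h1, h2, h3⟩ | ⟨h1, h2, h3⟩
  · have := key h h1
    rw [h2, h3] at this
    rw [this, neg_neg]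
  · have := key _ h1
    rw [h2, h3] at this
    exact this

theorem causal_step {c : Lab → Lab} {z : Z → Z}
    (hz : ∀ (m : ℕ) (y y' : Z), (∀ h, len h < m → y h = y' h) → ∀ h, len h ≤ m → z y h = z y' h) :
    Causal (stepF c z) := by
  intro m y y' hy h hh
  unfold stepF
  rw [hz m y y' hy h hh]
  by_cases h1 : h = one
  · rw [if_pos h1, if_pos h1]
  · rw [if_neg h1, if_neg h1]
    have := len_par h1
    rw [hy (par h) (by omega)]

/-- legalisation of a raw labelling -/
noncomputable def leg (s : S) (z : Z) : Z := fixp (stepF (rfx s) (fun _ => z))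

theorem causal_leg (s : S) (z : Z) : Causal (stepF (rfx s) (fun _ => z)) :=
  causal_step (fun _ _ _ _ _ _ => rfl)

noncomputable def legX (s : S) (z : Z) : X :=
  ⟨leg s z, fun h r => legal_of_step (fixp_eq (causal_leg s z)) h r⟩

theorem legX_eq {s : S} {z : Z} {y : X} (h0 : y.1 one = rfx s (z one))
    (h1 : ∀ h, h ≠ one → y.1 h = adj (lst h) (y.1 (par h)) (z h)) : legX s z = y := by
  apply Subtype.ext
  show fixp (stepF (rfx s) (fun _ => z)) = y.1
  refine (fixp_unique (causal_leg s z) fun h => ?_).symm
  unfold stepF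
  by_cases h2 : h = one
  · rw [if_pos h2, h2, h0]
  · rw [if_neg h2, h1 h h2]

theorem adj_self (y : X) {h : V} (h1 : h ≠ one) :
    adj (lst h) (y.1 (par h)) (y.1 h) = y.1 h := by
  apply adj_of
  have := y.2 (par h) (lst h)
  rwa [act_par h1] at this

theorem measurable_legX (s : S) : Measurable (legX s) := by
  apply Measurable.subtype_mk
  rw [measurable_pi_iff]
  intro h
  have : ∀ n, ∀ h, Measurable (fun z : Z => itz (stepF (rfx s) (fun _ => z)) n h) := by
    intro n
    induction n with
    | zero => intro h; exact measurable_const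
    | succ n ih =>
      intro h
      by_cases h1 : h = one
      · have : (fun z : Z => itz (stepF (rfx s) (fun _ => z)) (n + 1) h) =
            fun z => rfx s (z h) := by
          funext z
          show stepF (rfx s) (fun _ => z) _ h = _
          unfold stepF
          rw [if_pos h1]
        rw [this]
        exact (measurable_of_finite (rfx s)).comp (measurable_pi_apply h)
      · have : (fun z : Z => itz (stepF (rfx s) (fun _ => z)) (n + 1) h) =
            fun z => adj (lst h) (itz (stepF (rfx s) (fun _ => z)) n (par h)) (z h) := by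
          funext z
          show stepF (rfx s) (fun _ => z) _ h = _
          unfold stepF
          rw [if_neg h1]
        rw [this]
        have h2 : Measurable (fun p : Lab × Lab => adj (lst h) p.1 p.2) := measurable_of_finite _
        exact h2.comp ((ih (par h)).prodMk (measurable_pi_apply h))
  exact this (len h + 1) h

/-! ### causal strategies -/

/-- a causal strategy for the player labelling outside the `s`-branch -/
def CT (s : S) (Φ : Z → Z) : Prop :=
  ∀ (m : ℕ) (y y' : Z), (∀ h, br h = some s → len h ≤ m → y h = y' h) →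
    ∀ h, len h ≤ m → Φ y h = Φ y' h

/-- a causal strategy for the player labelling the `s`-branch -/
def CH (s : S) (Ψ : Z → Z) : Prop :=
  ∀ (m : ℕ) (y y' : Z), (∀ h, br h ≠ some s → len h ≤ m → y h = y' h) →
    ∀ h, len h ≤ m + 1 → Ψ y h = Ψ y' h

def WinT (s : S) (W : Set X) : Prop :=
  ∃ Φ, CT s Φ ∧ ∀ z : Z, (∀ h, br h ≠ some s → z h = Φ z h) → legX s z ∈ W

def WinH (s : S) (W : Set X) : Prop :=
  ∃ Ψ, CH s Ψ ∧ ∀ z : Z, (∀ h, br h = some s → z h = Ψ z h) → legX s z ∉ W

section play

variable {A : Type}

def plL (b : Bool) (σ : List A → A) (opp : ℕ → A) : ℕ → List A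
  | 0 => []
  | n + 1 => (if n.bodd = b then σ (plL b σ opp n) else opp n) :: plL b σ opp n

def pl (b : Bool) (σ : List A → A) (opp : ℕ → A) (n : ℕ) : A :=
  if n.bodd = b then σ (plL b σ opp n) else opp n

theorem pos_pl (b : Bool) (σ : List A → A) (opp : ℕ → A) (n : ℕ) :
    BD.pos (pl b σ opp) n = plL b σ opp n := by
  induction n with
  | zero => rfl
  | succ n ih => rw [BD.pos_succ, ih]; rfl

theorem plL_congr {b : Bool} {σ : List A → A} {opp opp' : ℕ → A} {n : ℕ}
    (h : ∀ m < n, m.bodd ≠ b → opp m = opp' m) : plL b σ opp n = plL b σ opp' n := by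
  induction n with
  | zero => rfl
  | succ n ih =>
    have h1 := ih (fun m hm => h m (by omega))
    show (if n.bodd = b then σ (plL b σ opp n) else opp n) :: plL b σ opp n =
      (if n.bodd = b then σ (plL b σ opp' n) else opp' n) :: plL b σ opp' n
    rw [h1]
    by_cases h2 : n.bodd = b
    · rw [if_pos h2, if_pos h2]
    · rw [if_neg h2, if_neg h2, h n (by omega) h2]

theorem pl_strategy {b : Bool} {σ : List A → A} {opp : ℕ → A} {n : ℕ} (h : n.bodd = b) :
    pl b σ opp n = σ (BD.pos (pl b σ opp) n) := by
  rw [pos_pl]; exact if_pos h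

theorem pl_opp {b : Bool} {σ : List A → A} {opp : ℕ → A} {n : ℕ} (h : n.bodd ≠ b) :
    pl b σ opp n = opp n := if_neg h

theorem pl_congr {b : Bool} {σ : List A → A} {opp opp' : ℕ → A} {n : ℕ} (hn : n.bodd = b)
    (h : ∀ m < n, m.bodd ≠ b → opp m = opp' m) : pl b σ opp n = pl b σ opp' n := by
  unfold pl
  rw [if_pos hn, if_pos hn, plL_congr h]

end play

open Classical in
/-- the labelling produced by a play -/
noncomputable def comb (s : S) (p : ℕ → Z) : Z := fun h =>
  if br h = some s then p (2 * (len h - 1) + 1) h else p (2 * len h) h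

theorem measurable_comb (s : S) :
    @Measurable (ℕ → Z) Z (@MeasurableSpace.pi ℕ (fun _ => Z) (fun _ => ⊤)) _ (comb s) := by
  let _ : MeasurableSpace Z := ⊤
  refine measurable_pi_iff.2 fun h => ?_
  have h1 : ∀ n, @Measurable (ℕ → Z) Lab (@MeasurableSpace.pi ℕ (fun _ => Z) (fun _ => ⊤)) _
      (fun p => p n h) := by
    intro n
    have h2 : @Measurable Z Lab ⊤ _ (fun z => z h) := measurable_from_top
    have h3 : @Measurable (ℕ → Z) Z (@MeasurableSpace.pi ℕ (fun _ => Z) (fun _ => ⊤)) ⊤
      (fun p => p n) := @measurable_pi_apply ℕ (fun _ => Z) (fun _ => ⊤) n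
    exact @Measurable.comp _ _ _ (@MeasurableSpace.pi ℕ (fun _ => Z) (fun _ => ⊤)) ⊤ _ _ _ h2 h3
  unfold comb
  by_cases h2 : br h = some s
  · simp only [h2, if_true]; exact h1 _
  · simp only [h2, if_false]; exact h1 _

theorem bodd_two_mul (n : ℕ) : (2 * n).bodd = false := by simp [Nat.bodd_mul]
theorem bodd_two_mul_add (n : ℕ) : (2 * n + 1).bodd = true := by simp [Nat.bodd_mul]

open Classical in
theorem win_or (s : S) {W : Set X} (hW : MeasurableSet W) : WinT s W ∨ WinH s W := by
  have hm : @MeasurableSet _ (@MeasurableSpace.pi ℕ (fun _ => Z) (fun _ => ⊤))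
      {p : ℕ → Z | legX s (comb s p) ∈ W} := by
    have h1 : @Measurable (ℕ → Z) X (@MeasurableSpace.pi ℕ (fun _ => Z) (fun _ => ⊤)) _
        (fun p => legX s (comb s p)) :=
      @Measurable.comp _ _ _ (@MeasurableSpace.pi ℕ (fun _ => Z) (fun _ => ⊤)) _ _ _ _
        (measurable_legX s) (measurable_comb s)
    exact h1 hW
  rcases BD.pi_determinacy _ hm with ⟨σ, hσ⟩ | ⟨σ, hσ⟩
  · left
    set opp : Z → ℕ → Z := fun y n h => if br h = some s ∧ len h ≤ n / 2 + 1 then y h else default
      with hopp
    refine ⟨fun y h => pl false σ (opp y) (2 * len h) h, ?_, ?_⟩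
    · intro m y y' hy h hh
      have : pl false σ (opp y) (2 * len h) = pl false σ (opp y') (2 * len h) := by
        refine pl_congr (bodd_two_mul _) fun n hn _ => ?_
        funext u
        simp only [hopp]
        by_cases h1 : br u = some s ∧ len u ≤ n / 2 + 1
        · rw [if_pos h1, if_pos h1]
          exact hy u h1.1 (by omega)
        · rw [if_neg h1, if_neg h1]
      show pl false σ (opp y) (2 * len h) h = pl false σ (opp y') (2 * len h) h
      rw [this]
    · intro z hz
      have h1 := hσ (pl false σ (opp z)) (fun n hn => pl_strategy hn)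
      have h2 : comb s (pl false σ (opp z)) = z := by
        funext h
        unfold comb
        by_cases h3 : br h = some s
        · rw [if_pos h3, pl_opp (by rw [bodd_two_mul_add]; simp)]
          have h4 := len_pos_of_br h3
          simp only [hopp]
          rw [if_pos ⟨h3, by omega⟩]
        · rw [if_neg h3]
          exact (hz h h3).symm
      have h3 : legX s (comb s (pl false σ (opp z))) ∈ W := h1
      rwa [h2] at h3
  · right
    set opp : Z → ℕ → Z := fun y n h => if br h ≠ some s ∧ len h ≤ n / 2 then y h else default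
      with hopp
    refine ⟨fun y h => pl true σ (opp y) (2 * (len h - 1) + 1) h, ?_, ?_⟩
    · intro m y y' hy h hh
      have : pl true σ (opp y) (2 * (len h - 1) + 1) = pl true σ (opp y') (2 * (len h - 1) + 1) := by
        refine pl_congr (bodd_two_mul_add _) fun n hn _ => ?_
        funext u
        simp only [hopp]
        by_cases h1 : br u ≠ some s ∧ len u ≤ n / 2
        · rw [if_pos h1, if_pos h1]
          exact hy u h1.1 (by omega)
        · rw [if_neg h1, if_neg h1]
      show pl true σ (opp y) (2 * (len h - 1) + 1) h = pl true σ (opp y') (2 * (len h - 1) + 1) h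
      rw [this]
    · intro z hz
      have h1 := hσ (pl true σ (opp z)) (fun n hn => pl_strategy hn)
      have h2 : comb s (pl true σ (opp z)) = z := by
        funext h
        unfold comb
        by_cases h3 : br h = some s
        · rw [if_pos h3]
          exact (hz h h3).symm
        · rw [if_neg h3, pl_opp (by rw [bodd_two_mul]; simp)]
          simp only [hopp]
          rw [if_pos ⟨h3, by omega⟩]
      have h3 : ¬ legX s (comb s (pl true σ (opp z))) ∈ W := h1
      rwa [h2] at h3

/-! ### gluing -/

open Classical in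
theorem glue (ℓ : Lab) (B C : S → Set X)
    (hB : ∀ s ∈ ℓ.O, WinH s (B s)) (hC : ∀ s ∈ ℓ.I, WinT s (C s)) :
    ∃ x : X, x.1 one = ℓ ∧ (∀ s ∈ ℓ.O, x ∉ B s) ∧ ∀ s ∈ ℓ.I, R (gen s) x ∈ C s := by
  have hΨ : ∀ s, ∃ Ψ, CH s Ψ ∧ (s ∈ ℓ.O →
      ∀ z : Z, (∀ h, br h = some s → z h = Ψ z h) → legX s z ∉ B s) := by
    intro s
    by_cases h : s ∈ ℓ.O
    · obtain ⟨Ψ, h1, h2⟩ := hB s h
      exact ⟨Ψ, h1, fun _ => h2⟩
    · exact ⟨fun _ _ => default, fun _ _ _ _ _ _ => rfl, fun h' => absurd h' h⟩
  have hΦ : ∀ s, ∃ Φ, CT s Φ ∧ (s ∈ ℓ.I →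
      ∀ z : Z, (∀ h, br h ≠ some s → z h = Φ z h) → legX s z ∈ C s) := by
    intro s
    by_cases h : s ∈ ℓ.I
    · obtain ⟨Φ, h1, h2⟩ := hC s h
      exact ⟨Φ, h1, fun _ => h2⟩
    · exact ⟨fun _ _ => default, fun _ _ _ _ _ _ => rfl, fun h' => absurd h' h⟩
  choose Ψ hΨ1 hΨ2 using hΨ
  choose Φ hΦ1 hΦ2 using hΦ
  -- proposals
  set prop : Z → Z := fun y h => match br h with
    | none => ℓ
    | some s => if s ∈ ℓ.O then Ψ s y h else Φ s (fun u => y (lm s u)) (lm s h) with hprop
  have hcausal : ∀ (m : ℕ) (y y' : Z), (∀ h, len h < m → y h = y' h) →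
      ∀ h, len h ≤ m → prop y h = prop y' h := by
    intro m y y' hy h hh
    simp only [hprop]
    rcases hbr : br h with _ | s
    · rfl
    · simp only []
      have hpos := len_pos_of_br hbr
      by_cases hs : s ∈ ℓ.O
      · rw [if_pos hs, if_pos hs]
        exact hΨ1 s (m - 1) y y' (fun u _ hu => hy u (by omega)) h (by omega)
      · rw [if_neg hs, if_neg hs]
        have h1 := len_lm_of_eq hbr
        refine hΦ1 s (m - 1) _ _ (fun u hu hu' => ?_) (lm s h) (by omega)
        have h2 := len_lm_of_eq hu
        exact hy _ (by omega)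
  set F := stepF id prop with hF
  have hFc : Causal F := causal_step hcausal
  set x : X := ⟨fixp F, fun h r => legal_of_step (fixp_eq hFc) h r⟩ with hx
  have hx0 : x.1 one = ℓ := by
    show fixp F one = ℓ
    rw [fixp_eq hFc]
    simp only [hF, stepF, if_true, id]
    rfl
  have hx1 : ∀ h, h ≠ one → x.1 h = adj (lst h) (x.1 (par h)) (prop x.1 h) := by
    intro h h1
    show fixp F h = _
    rw [fixp_eq hFc]
    simp only [hF, stepF]
    rw [if_neg h1]
  refine ⟨x, hx0, ?_, ?_⟩
  · intro s hs
    have hs1 : st ℓ s = 1 := st_O.2 hs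
    set z : Z := fun h => if br h = some s then Ψ s x.1 h else x.1 h with hz
    have h1 : Ψ s z = Ψ s x.1 := by
      funext h
      refine hΨ1 s (len h) _ _ (fun u hu _ => ?_) h (by omega)
      simp only [hz]
      rw [if_neg hu]
    have h2 : legX s z = x := by
      apply legX_eq
      · have : z one = ℓ := by
          simp only [hz]
          rw [if_neg (by simp [br, one]), hx0]
        rw [this, hx0, rfx_of hs1]
      · intro h hh
        by_cases h3 : br h = some s
        · have h4 : z h = prop x.1 h := by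
            simp only [hz, hprop, h3, if_true]
            rw [if_pos hs]
          rw [h4, hx1 h hh]
        · have h4 : z h = x.1 h := by
            simp only [hz]
            rw [if_neg h3]
          rw [h4, adj_self x hh]
    rw [← h2]
    refine hΨ2 s hs z ?_
    intro h h3
    rw [h1]
    simp only [hz]
    rw [if_pos h3]
  · intro s hs
    have hs1 : st ℓ s = -1 := st_I.2 hs
    have hs2 : s ∉ ℓ.O := Finset.disjoint_right.1 ℓ.disj hs
    set y : X := R (gen s) x with hy
    have hy' : ∀ u, y.1 u = x.1 (lm s u) := fun u => rfl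
    set z : Z := fun u => if br u = some s then y.1 u else Φ s y.1 u with hz
    have h1 : Φ s z = Φ s y.1 := by
      funext h
      refine hΦ1 s (len h) _ _ (fun u hu _ => ?_) h le_rfl
      simp only [hz]
      rw [if_pos hu]
    have hlm : ∀ u, br u ≠ some s → prop x.1 (lm s u) = Φ s y.1 u := by
      intro u hu
      have h2 : br (lm s u) = some s := (br_lm s u).2 hu
      simp only [hprop, h2]
      rw [if_neg hs2, lm_lm]
      rfl
    have h2 : legX s z = y := by
      apply legX_eq
      · have h3 : br one ≠ some s := by simp [br, one]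
        have : z one = Φ s y.1 one := by
          simp only [hz]
          rw [if_neg h3]
        rw [this, hy']
        have h4 : lm s one = gen s := rfl
        have h5 : gen s ≠ one := by
          intro h6
          have := congrArg (fun v : V => v.1) h6
          simp [gen, one] at this
        rw [h4, hx1 _ h5, par_gen, lst_gen, hx0, adj_eq_rfx hs1, ← h4, hlm one h3]
      · intro u hu
        by_cases h3 : br u = some s
        · have h4 : z u = y.1 u := by
            simp only [hz]
            rw [if_pos h3]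
          rw [h4, adj_self y hu]
        · have h4 : z u = Φ s y.1 u := by
            simp only [hz]
            rw [if_neg h3]
          obtain ⟨h5, h6, h7⟩ := par_lm hu h3
          have h8 : lm s u ≠ one := by
            intro h9
            have := (br_lm s u).2 h3
            rw [h9] at this
            simp [br, one] at this
          rw [h4, hy', hy', hx1 _ h8, h5, h6, hlm u h3]
    rw [← h2]
    refine hΦ2 s hs z ?_
    intro h h3
    rw [h1]
    simp only [hz]
    rw [if_neg h3]

end V11256.PP
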