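import Mathlib
import Pool.Agent.V11256.PP.D

/-!
# Plain paradoxes, part E: values of the flow games
-/

namespace V11256.PP

theorem winT_of_all {s : S} {W : Set X} (h : ∀ x, x ∈ W) : WinT s W :=
  ⟨fun _ _ => default, fun _ _ _ _ _ _ => rfl, fun _ _ => h _⟩

theorem winH_of_none {s : S} {W : Set X} (h : ∀ x, x ∉ W) : WinH s W :=
  ⟨fun _ _ => default, fun _ _ _ _ _ _ => rfl, fun _ _ => h _⟩

variable {D : ℕ} {δ : Bool → X → V}

theorem ph_abs (k : ℕ) (s : S) (h t : V) : |ph k s h t| ≤ 1 := by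
  unfold ph
  by_cases h1 : br h = some s
  · have h2 : ¬ (br h ≠ some s ∧ br t = some s ∧ k ≤ len h + 1) := fun h3 => h3.1 h1
    rw [if_neg h2]
    split_ifs <;> simp
  · have h2 : ¬ (br h = some s ∧ br t ≠ some s ∧ k ≤ len h) := fun h3 => h1 h3.1
    rw [if_neg h2]
    split_ifs <;> simp

theorem fl_bdd (hδ : ∀ b, PM D (δ b)) (k : ℕ) (s : S) :
    ∃ M : ℕ, ∀ x, |fl δ k s x| ≤ (M : ℤ) := by
  refine ⟨∑ _h ∈ ball D, ∑ _b : Bool, 1, fun x => ?_⟩
  rw [fl_eq_sum hδ]
  push_cast
  refine (Finset.abs_sum_le_sum_abs _ _).trans (Finset.sum_le_sum fun h _ => ?_)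
  refine (Finset.abs_sum_le_sum_abs _ _).trans (Finset.sum_le_sum fun b _ => ?_)
  exact ph_abs _ _ _ _

/-- `c` is a value of the game for the flow in direction `s` -/
def Val (δ : Bool → X → V) (k : ℕ) (s : S) (c : ℤ) : Prop :=
  WinT s {x | c ≤ fl δ k s x} ∧ WinH s {x | c + 1 ≤ fl δ k s x}

theorem exists_val (hδ : ∀ b, PM D (δ b)) (k : ℕ) (s : S) : ∃ c, Val δ k s c := by
  obtain ⟨M, hM⟩ := fl_bdd hδ k s
  by_contra hno
  push Not at hno
  have h1 : ∀ n : ℕ, WinT s {x | -(M : ℤ) + n ≤ fl δ k s x} := by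
    intro n
    induction n with
    | zero =>
      refine winT_of_all fun x => ?_
      show -(M : ℤ) + ((0 : ℕ) : ℤ) ≤ fl δ k s x
      have := (abs_le.1 (hM x)).1
      push_cast
      linarith
    | succ n ih =>
      have h2 : MeasurableSet {x | (-(M : ℤ) + n) + 1 ≤ fl δ k s x} :=
        measurableSet_le measurable_const (measurable_fl hδ k s)
      rcases win_or s h2 with h3 | h3
      · have : {x | -(M : ℤ) + ((n + 1 : ℕ) : ℤ) ≤ fl δ k s x} =
            {x | (-(M : ℤ) + n) + 1 ≤ fl δ k s x} := by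
          ext x
          simp only [Set.mem_setOf_eq]
          push_cast
          rw [add_assoc]
        rw [this]
        exact h3
      · exact absurd ⟨ih, h3⟩ (hno _)
  have h2 := h1 (2 * M)
  have h3 : (-(M : ℤ) + ((2 * M : ℕ) : ℤ)) = M := by push_cast; ring
  rw [h3] at h2
  refine hno M ⟨h2, winH_of_none fun x hx => ?_⟩
  have h4 : (M : ℤ) + 1 ≤ fl δ k s x := hx
  have := (abs_le.1 (hM x)).2
  linarith

theorem val_old (hδ : ∀ b, PM D (δ b)) {k : ℕ} (hk : D < k) (s : S) : Val δ k s 0 := by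
  refine ⟨winT_of_all fun x => ?_, winH_of_none fun x hx => ?_⟩
  · show (0 : ℤ) ≤ fl δ k s x
    rw [fl_old hδ hk]
  · have : (0 : ℤ) + 1 ≤ fl δ k s x := hx
    rw [fl_old hδ hk] at this
    linarith

theorem val_zero {s : S} {c : ℤ} (h : Val δ 1 s c) : Val δ 0 s c := by
  unfold Val at h ⊢
  simp_rw [fl_zero_one]
  exact h

/-- the inequality between the values -/
theorem value_ineq (hδ : ∀ b, PM D (δ b))
    (hinj : ∀ (x y : X) (b c : Bool), R (δ b x) x = R (δ c y) y → x = y ∧ b = c)
    {v : ℕ → S → ℤ} (hv : ∀ k s, Val δ k s (v k s)) (k : ℕ) (ℓ : Lab) :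
    (if k = 0 then (1 : ℤ) else -1) ≤ ∑ s ∈ ℓ.O, v (k + 1) s - ∑ s ∈ ℓ.I, v k s := by
  obtain ⟨x, h1, h2, h3⟩ := glue ℓ (fun s => {x | v (k + 1) s + 1 ≤ fl δ (k + 1) s x})
    (fun s => {x | v k s ≤ fl δ k s x}) (fun s _ => (hv (k + 1) s).2) (fun s _ => (hv k s).1)
  have h4 := vertex_ineq hδ hinj k x
  rw [h1] at h4
  have h5 : ∑ s ∈ ℓ.O, fl δ (k + 1) s x ≤ ∑ s ∈ ℓ.O, v (k + 1) s := by
    refine Finset.sum_le_sum fun s hs => ?_
    have : ¬ (v (k + 1) s + 1 ≤ fl δ (k + 1) s x) := h2 s hs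
    omega
  have h6 : ∑ s ∈ ℓ.I, fl δ k s x ≤ ∑ s ∈ ℓ.I, -v k s := by
    refine Finset.sum_le_sum fun s hs => ?_
    have : v k s ≤ fl δ k s (R (gen s) x) := h3 s hs
    rw [fl_gen] at this
    omega
  rw [Finset.sum_neg_distrib] at h6
  linarith

/-- there is no such system of values -/
theorem no_values (N : ℕ) (v : ℕ → S → ℤ) (h01 : v 0 = v 1) (hN : v (N + 1) = 0)
    (h : ∀ (k : ℕ) (ℓ : Lab),
      (if k = 0 then (1 : ℤ) else -1) ≤ ∑ s ∈ ℓ.O, v (k + 1) s - ∑ s ∈ ℓ.I, v k s) : False := by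
  have h' : ∀ (k : ℕ) (O I : Finset S), O.card = 3 → I.card = 2 → Disjoint O I →
      (if k = 0 then (1 : ℤ) else -1) ≤ ∑ s ∈ O, v (k + 1) s - ∑ s ∈ I, v k s :=
    fun k O I h1 h2 h3 => h k ⟨(O, I), h1, h2, h3⟩
  have hS : (Finset.univ : Finset S).card = 6 := by simp
  have key : ∀ k, 2 ≤ (Finset.univ.filter (fun s => 1 ≤ v (k + 1) s)).card := by
    intro k
    induction k with
    | zero =>
      obtain ⟨a, _, ha⟩ := Finset.exists_max_image (Finset.univ : Finset S) (v 1)
        ⟨0, Finset.mem_univ _⟩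
      obtain ⟨b, hb0, hb⟩ := Finset.exists_max_image ((Finset.univ : Finset S).erase a) (v 1)
        (by
          rw [← Finset.card_pos, Finset.card_erase_of_mem (Finset.mem_univ _), hS]
          norm_num)
      have hab : b ≠ a := (Finset.mem_erase.1 hb0).1
      have hI : ({a, b} : Finset S).card = 2 := Finset.card_pair hab.symm
      have hT : 3 ≤ (Finset.univ \ ({a, b} : Finset S)).card := by
        have := Finset.le_card_sdiff ({a, b} : Finset S) Finset.univ
        rw [hS, hI] at this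
        omega
      obtain ⟨O, hO1, hO2⟩ := Finset.exists_subset_card_eq hT
      have hdis : Disjoint O ({a, b} : Finset S) :=
        Finset.disjoint_of_subset_left hO1 Finset.sdiff_disjoint
      have h1 := h' 0 O {a, b} hO2 hI hdis
      rw [if_pos rfl, h01, Finset.sum_pair hab.symm] at h1
      have h2 : ∑ s ∈ O, v (0 + 1) s ≤ ∑ s ∈ O, v 1 b := by
        refine Finset.sum_le_sum fun s hs => hb s ?_
        have := Finset.mem_sdiff.1 (hO1 hs)
        refine Finset.mem_erase.2 ⟨?_, Finset.mem_univ _⟩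
        rintro rfl
        exact this.2 (Finset.mem_insert_self _ _)
      rw [Finset.sum_const, hO2, nsmul_eq_mul] at h2
      have h3 := ha b (Finset.mem_univ _)
      push_cast at h2
      have h4 : 1 ≤ v 1 b := by linarith
      rw [← hI]
      refine Finset.card_le_card ?_
      intro s hs
      rw [Finset.mem_filter]
      refine ⟨Finset.mem_univ _, ?_⟩
      rcases Finset.mem_insert.1 hs with h5 | h5
      · rw [h5]; show 1 ≤ v 1 a; linarith
      · rw [Finset.mem_singleton.1 h5]; exact h4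
    | succ k ih =>
      obtain ⟨I, hI1, hI2⟩ := Finset.exists_subset_card_eq ih
      by_contra hlt
      have hT : 3 ≤ ((Finset.univ \ I) \
          (Finset.univ.filter (fun s => 1 ≤ v (k + 1 + 1) s))).card := by
        have h1 := Finset.le_card_sdiff I (Finset.univ : Finset S)
        have h2 := Finset.le_card_sdiff (Finset.univ.filter (fun s => 1 ≤ v (k + 1 + 1) s))
          (Finset.univ \ I)
        rw [hS, hI2] at h1
        omega
      obtain ⟨O, hO1, hO2⟩ := Finset.exists_subset_card_eq hT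
      have hdis : Disjoint O I :=
        Finset.disjoint_of_subset_left (hO1.trans Finset.sdiff_subset) Finset.sdiff_disjoint
      have h1 := h' (k + 1) O I hO2 hI2 hdis
      rw [if_neg (Nat.succ_ne_zero _)] at h1
      have h2 : ∑ s ∈ O, v (k + 1 + 1) s ≤ ∑ s ∈ O, 0 := by
        refine Finset.sum_le_sum fun s hs => ?_
        have h3 := (Finset.mem_sdiff.1 (hO1 hs)).2
        rw [Finset.mem_filter] at h3
        by_contra h4
        exact h3 ⟨Finset.mem_univ _, by omega⟩
      have h3 : ∑ s ∈ I, (1 : ℤ) ≤ ∑ s ∈ I, v (k + 1) s := by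
        refine Finset.sum_le_sum fun s hs => ?_
        exact (Finset.mem_filter.1 (hI1 hs)).2
      rw [Finset.sum_const, hI2, nsmul_eq_mul] at h3
      rw [Finset.sum_const_zero] at h2
      push_cast at h3
      linarith
  have h1 := key N
  have h2 : (Finset.univ.filter (fun s => 1 ≤ v (N + 1) s)) = ∅ := by
    rw [Finset.filter_eq_empty_iff]
    intro s _
    rw [hN]
    simp
  rw [h2] at h1
  simp at h1

/-- there is no measurable injection of two copies of `X` into `X` moving along active edges by a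
bounded distance -/
theorem no_injection (hδ : ∀ b, PM D (δ b))
    (hinj : ∀ (x y : X) (b c : Bool), R (δ b x) x = R (δ c y) y → x = y ∧ b = c) : False := by
  choose u hu using exists_val hδ
  set w : ℕ → S → ℤ := fun k s => if D < k then 0 else u k s with hw
  have hwv : ∀ k s, Val δ k s (w k s) := by
    intro k s
    simp only [hw]
    split_ifs with h
    · exact val_old hδ h s
    · exact hu k s
  set v : ℕ → S → ℤ := fun k s => if k = 0 then w 1 s else w k s with hv
  have hvv : ∀ k s, Val δ k s (v k s) := by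
    intro k s
    simp only [hv]
    split_ifs with h
    · rw [h]; exact val_zero (hwv 1 s)
    · exact hwv k s
  refine no_values D v ?_ ?_ (value_ineq hδ hinj hvv)
  · funext s; simp [hv]
  · funext s; simp [hv, hw]

end V11256.PP
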