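import Mathlib
import Pool.Agent.V11256.PP.E

/-!
# Plain paradoxes, part F: equidecompositions
-/

namespace V11256.PP

section defs

variable (Γ : Type) {Y : Type} [Group Γ] [MulAction Γ Y] [MeasurableSpace Y]

/-- `A` and `B` are cut into Borel pieces `P i`, `Q i` indexed by `ι`, where `P i` lies in the level
`j i` and `Q i` is the translate of `P i` by `γ i`, put in the level `k i` -/
def Dec (ι : Type) (A B : Set (Y × ℕ)) : Prop :=
  ∃ (P Q : ι → Set (Y × ℕ)) (γ : ι → Γ) (j k : ι → ℕ),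
    (∀ i, MeasurableSet (P i)) ∧ (∀ i, MeasurableSet (Q i)) ∧
    (∀ i i', i ≠ i' → Disjoint (P i) (P i')) ∧ (⋃ i, P i) = A ∧
    (∀ i i', i ≠ i' → Disjoint (Q i) (Q i')) ∧ (⋃ i, Q i) = B ∧
    (∀ i, ∀ p ∈ P i, p.2 = j i) ∧
    (∀ i, Q i = {q | ∃ x, (x, j i) ∈ P i ∧ q = (γ i • x, k i)})

/-- equidecomposability: finitely many Borel pieces -/
def Equidec (A B : Set (Y × ℕ)) : Prop := ∃ r : ℕ, Dec Γ (Fin r) A B

variable {Γ}

theorem Dec.reindex {ι κ : Type} (e : κ ≃ ι) {A B : Set (Y × ℕ)} (h : Dec Γ ι A B) :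
    Dec Γ κ A B := by
  obtain ⟨P, Q, γ, j, k, h1, h2, h3, h4, h5, h6, h7, h8⟩ := h
  refine ⟨P ∘ e, Q ∘ e, γ ∘ e, j ∘ e, k ∘ e, fun i => h1 _, fun i => h2 _,
    fun i i' hi => h3 _ _ (e.injective.ne hi), ?_, fun i i' hi => h5 _ _ (e.injective.ne hi), ?_,
    fun i => h7 _, fun i => h8 _⟩
  · rw [← h4]; exact e.surjective.iUnion_comp P
  · rw [← h6]; exact e.surjective.iUnion_comp Q

theorem Dec.equidec {ι : Type} [Finite ι] {A B : Set (Y × ℕ)} (h : Dec Γ ι A B) :
    Equidec Γ A B := by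
  obtain ⟨n, ⟨e⟩⟩ := Finite.exists_equiv_fin ι
  exact ⟨n, h.reindex e.symm⟩

end defs

instance : StandardBorelSpace X := by
  refine MeasurableSet.standardBorel (s := {x : V → Lab | ∀ (h : V) (s : S),
    st (x (act h (gen s))) s = - st (x h) s}) ?_
  have : {x : V → Lab | ∀ (h : V) (s : S), st (x (act h (gen s))) s = - st (x h) s} =
      ⋂ (h : V) (s : S), {x : V → Lab | st (x (act h (gen s))) s = - st (x h) s} := by
    ext x; simp
  rw [this]
  refine MeasurableSet.iInter fun h => MeasurableSet.iInter fun s => ?_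
  have h1 : ∀ u : V, Measurable (fun x : V → Lab => st (x u) s) := fun u =>
    (measurable_of_finite (fun ℓ : Lab => st ℓ s)).comp (measurable_pi_apply u)
  exact measurableSet_eq_fun (h1 _) (h1 h).neg

/-! ### there is no equidecomposition -/

theorem no_dec {ι : Type} [Finite ι] {A B : Set (X × ℕ)}
    (hA : ∀ (x : X) (b : Bool), (x, b.toNat) ∈ A) (hB : ∀ q ∈ B, q.2 = 0)
    (h : Dec (FreeGroup S) ι A B) : False := by
  obtain ⟨P, Q, γ, j, k, hP, hQ, hPd, hPA, hQd, hQB, hj, hQe⟩ := h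
  choose E d hd hγ using fun i => exists_PM (γ i)
  cases nonempty_fintype ι
  have hi : ∀ (b : Bool) (x : X), ∃ i, (x, b.toNat) ∈ P i := by
    intro b x
    have := hA x b
    rw [← hPA] at this
    exact Set.mem_iUnion.1 this
  choose idx hidx using hi
  have huniq : ∀ p i i', p ∈ P i → p ∈ P i' → i = i' := by
    intro p i i' h1 h2
    by_contra hne
    exact Set.disjoint_left.1 (hPd i i' hne) h1 h2
  let _ : MeasurableSpace ι := ⊤
  have _ : DiscreteMeasurableSpace ι := ⟨fun _ => trivial⟩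
  have hmeas : ∀ b, Measurable (idx b) := by
    intro b
    refine measurable_to_countable' fun i => ?_
    have : idx b ⁻¹' {i} = (fun x : X => (x, b.toNat)) ⁻¹' (P i) := by
      ext x
      simp only [Set.mem_preimage, Set.mem_singleton_iff]
      constructor
      · rintro rfl; exact hidx b x
      · intro h1; exact huniq _ _ _ (hidx b x) h1
    rw [this]
    exact measurable_prodMk_right (hP i)
  set D := ∑ i, E i with hD
  have hED : ∀ i, E i ≤ D := fun i =>
    Finset.single_le_sum (f := E) (fun _ _ => Nat.zero_le _) (Finset.mem_univ i)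
  have hδ : ∀ b, PM D (fun x => d (idx b x) x) := by
    intro b
    refine ⟨?_, fun x => ((hd _).bdd x).trans (hED _), ?_⟩
    · have h1 : Measurable (fun p : ι × X => d p.1 p.2) :=
        measurable_from_prod_countable_right (fun i => (hd i).meas)
      exact h1.comp ((hmeas b).prodMk measurable_id)
    · intro x u s hs
      exact (hd (idx b (R u x))).path x u s hs
  refine no_injection (δ := fun b x => d (idx b x) x) hδ ?_
  intro x y b c he
  have he' : γ (idx b x) • x = γ (idx c y) • y := by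
    rw [hγ, hγ]; exact he
  have hq : ∀ (b : Bool) (x : X), (γ (idx b x) • x, 0) ∈ Q (idx b x) ∧ j (idx b x) = b.toNat := by
    intro b x
    have h1 := hidx b x
    have h2 : b.toNat = j (idx b x) := hj _ _ h1
    have h3 : (γ (idx b x) • x, k (idx b x)) ∈ Q (idx b x) := by
      rw [hQe]
      exact ⟨x, by rw [← h2]; exact h1, rfl⟩
    have h4 : k (idx b x) = 0 := by
      have : (γ (idx b x) • x, k (idx b x)) ∈ B := by
        rw [← hQB]; exact Set.mem_iUnion.2 ⟨_, h3⟩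
      exact hB _ this
    rw [h4] at h3
    exact ⟨h3, h2.symm⟩
  obtain ⟨h1, h2⟩ := hq b x
  obtain ⟨h3, h4⟩ := hq c y
  have h5 : idx b x = idx c y := by
    by_contra hne
    rw [he'] at h1
    exact Set.disjoint_left.1 (hQd _ _ hne) h1 h3
  rw [h5] at he' h2
  refine ⟨MulAction.injective _ he', ?_⟩
  have h6 : b.toNat = c.toNat := by rw [← h2, ← h4]
  cases b <;> cases c <;> simp at h6 ⊢

/-! ### the equidecomposition of three copies with two copies -/

def oi (ℓ : Lab) (i : Fin 3) : S := ℓ.O.orderEmbOfFin ℓ.cardO i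
def ii (ℓ : Lab) (j : Fin 2) : S := ℓ.I.orderEmbOfFin ℓ.cardI j

theorem oi_mem (ℓ : Lab) (i : Fin 3) : oi ℓ i ∈ ℓ.O := Finset.orderEmbOfFin_mem _ _ _
theorem ii_mem (ℓ : Lab) (j : Fin 2) : ii ℓ j ∈ ℓ.I := Finset.orderEmbOfFin_mem _ _ _

theorem oi_inj {ℓ : Lab} {i i' : Fin 3} (h : oi ℓ i = oi ℓ i') : i = i' :=
  (ℓ.O.orderEmbOfFin ℓ.cardO).injective h

theorem ii_inj {ℓ : Lab} {i i' : Fin 2} (h : ii ℓ i = ii ℓ i') : i = i' :=
  (ℓ.I.orderEmbOfFin ℓ.cardI).injective h

theorem oi_surj {ℓ : Lab} {s : S} (h : s ∈ ℓ.O) : ∃ i, oi ℓ i = s := by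
  have : s ∈ Set.range (ℓ.O.orderEmbOfFin ℓ.cardO) := by
    rw [Finset.range_orderEmbOfFin]; exact h
  exact this

theorem ii_surj {ℓ : Lab} {s : S} (h : s ∈ ℓ.I) : ∃ i, ii ℓ i = s := by
  have : s ∈ Set.range (ℓ.I.orderEmbOfFin ℓ.cardI) := by
    rw [Finset.range_orderEmbOfFin]; exact h
  exact this

theorem hat_of {s : S} {x : X} (h : st (x.1 one) s ≠ 0) : hat s x = R (gen s) x := if_pos h

theorem of_smul (s : S) (x : X) : (FreeGroup.of s : FreeGroup S) • x = hat s x := by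
  rw [smul_def]
  show FreeGroup.lift hatPerm (FreeGroup.of s) x = _
  rw [FreeGroup.lift_apply_of]
  rfl

theorem gen_ne_one (s : S) : gen s ≠ one := by
  intro h6
  have := congrArg (fun v : V => v.1) h6
  simp [gen, one] at this

def PP3 (i : Fin 3 × S × Fin 2) : Set (X × ℕ) :=
  {p | p.2 = i.1.1 ∧ oi (p.1.1 one) i.1 = i.2.1 ∧ ii (p.1.1 (gen i.2.1)) i.2.2 = i.2.1}

def QQ3 (i : Fin 3 × S × Fin 2) : Set (X × ℕ) :=
  {p | p.2 = i.2.2.1 ∧ ii (p.1.1 one) i.2.2 = i.2.1 ∧ oi (p.1.1 (gen i.2.1)) i.1 = i.2.1}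

theorem dec32 : Dec (FreeGroup S) (Fin 3 × S × Fin 2) (Set.univ ×ˢ {0, 1, 2} : Set (X × ℕ))
    (Set.univ ×ˢ {0, 1}) := by
  have hm1 : ∀ (f : Lab → S) (u : V) (s : S), MeasurableSet {p : X × ℕ | f (p.1.1 u) = s} := by
    intro f u s
    have : Measurable (fun p : X × ℕ => p.1.1 u) := (measurable_at u).comp measurable_fst
    exact this (MeasurableSet.of_discrete (s := {ℓ : Lab | f ℓ = s}))
  have hm2 : ∀ n : ℕ, MeasurableSet {p : X × ℕ | p.2 = n} := by
    intro n
    exact measurable_snd (MeasurableSet.of_discrete (s := {m : ℕ | m = n}))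
  refine ⟨PP3, QQ3, fun i => FreeGroup.of i.2.1, fun i => i.1.1, fun i => i.2.2.1,
    fun i => (hm2 _).inter ((hm1 (fun ℓ => oi ℓ i.1) one i.2.1).inter
      (hm1 (fun ℓ => ii ℓ i.2.2) (gen i.2.1) i.2.1)),
    fun i => (hm2 _).inter ((hm1 (fun ℓ => ii ℓ i.2.2) one i.2.1).inter
      (hm1 (fun ℓ => oi ℓ i.1) (gen i.2.1) i.2.1)), ?_, ?_, ?_, ?_, fun i p hp => hp.1, ?_⟩
  · rintro ⟨i, s, j⟩ ⟨i', s', j'⟩ hne
    rw [Set.disjoint_left]
    rintro p ⟨h1, h2, h3⟩ ⟨h1', h2', h3'⟩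
    simp only at h1 h2 h3 h1' h2' h3'
    apply hne
    have e1 : i = i' := Fin.ext (by rw [← h1, ← h1'])
    subst e1
    have e2 : s = s' := by rw [← h2, ← h2']
    subst e2
    have e3 : j = j' := ii_inj (by rw [h3, h3'])
    subst e3
    rfl
  · ext ⟨x, n⟩
    simp only [Set.mem_iUnion, Set.mem_prod, Set.mem_univ, true_and, Set.mem_insert_iff,
      Set.mem_singleton_iff]
    constructor
    · rintro ⟨⟨i, s, j⟩, h1, -, -⟩
      simp only at h1
      have := i.2
      omega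
    · intro hn
      have hn3 : n < 3 := by omega
      set s := oi (x.1 one) ⟨n, hn3⟩ with hs
      have h1 : st (x.1 one) s = 1 := st_O.2 (oi_mem _ _)
      have h2 : st (x.1 (gen s)) s = -1 := by rw [st_gen, h1]
      obtain ⟨j, hj⟩ := ii_surj (st_I.1 h2)
      exact ⟨(⟨n, hn3⟩, s, j), rfl, hs.symm, hj⟩
  · rintro ⟨i, s, j⟩ ⟨i', s', j'⟩ hne
    rw [Set.disjoint_left]
    rintro p ⟨h1, h2, h3⟩ ⟨h1', h2', h3'⟩
    simp only at h1 h2 h3 h1' h2' h3'
    apply hne
    have e1 : j = j' := Fin.ext (by rw [← h1, ← h1'])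
    subst e1
    have e2 : s = s' := by rw [← h2, ← h2']
    subst e2
    have e3 : i = i' := oi_inj (by rw [h3, h3'])
    subst e3
    rfl
  · ext ⟨x, n⟩
    simp only [Set.mem_iUnion, Set.mem_prod, Set.mem_univ, true_and, Set.mem_insert_iff,
      Set.mem_singleton_iff]
    constructor
    · rintro ⟨⟨i, s, j⟩, h1, -, -⟩
      simp only at h1
      have := j.2
      omega
    · intro hn
      have hn3 : n < 2 := by omega
      set s := ii (x.1 one) ⟨n, hn3⟩ with hs
      have h1 : st (x.1 one) s = -1 := st_I.2 (ii_mem _ _)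
      have h2 : st (x.1 (gen s)) s = 1 := by rw [st_gen, h1, neg_neg]
      obtain ⟨i, hi⟩ := oi_surj (st_O.1 h2)
      exact ⟨(i, s, ⟨n, hn3⟩), rfl, hs.symm, hi⟩
  · rintro ⟨i, s, j⟩
    ext ⟨y, m⟩
    constructor
    · rintro ⟨h1, h2, h3⟩
      simp only at h1 h2 h3
      have h4 : st (y.1 one) s = -1 := st_I.2 (h2 ▸ ii_mem _ _)
      have h5 : hat s y = R (gen s) y := hat_of (by rw [h4]; simp)
      refine ⟨hat s y, ⟨rfl, ?_, ?_⟩, ?_⟩
      · show oi ((hat s y).1 one) i = s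
        rw [h5, R_apply, act_one_right, h3]
      · show ii ((hat s y).1 (gen s)) j = s
        rw [h5, R_apply, gen_gen, h2]
      · rw [of_smul, hat_hat, h1]
    · rintro ⟨x, ⟨-, h2, h3⟩, h4⟩
      simp only at h2 h3
      rw [of_smul] at h4
      have h5 : st (x.1 one) s = 1 := st_O.2 (h2 ▸ oi_mem _ _)
      have h6 : hat s x = R (gen s) x := hat_of (by rw [h5]; simp)
      rw [h6] at h4
      have h7 : y = R (gen s) x := (Prod.ext_iff.1 h4).1
      have h8 : m = j.1 := (Prod.ext_iff.1 h4).2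
      subst h7
      refine ⟨h8, ?_, ?_⟩
      · show ii ((R (gen s) x).1 one) j = s
        rw [R_apply, act_one_right, h3]
      · show oi ((R (gen s) x).1 (gen s)) i = s
        rw [R_apply, gen_gen, h2]

end V11256.PP
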