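import Mathlib
import Pool.Agent.V11256.PP.F

/-!
# Plain paradoxes, part G: the Borel type semigroup of a group action
-/

namespace V11256.PP

section equiv

variable {Γ : Type} {Y : Type} [Group Γ] [MulAction Γ Y] [MeasurableSpace Y]

theorem Dec.symm {ι : Type} {A B : Set (Y × ℕ)} (h : Dec Γ ι A B) : Dec Γ ι B A := by
  obtain ⟨P, Q, γ, j, k, h1, h2, h3, h4, h5, h6, h7, h8⟩ := h
  refine ⟨Q, P, fun i => (γ i)⁻¹, k, j, h2, h1, h5, h6, h3, h4, ?_, ?_⟩
  · intro i q hq
    rw [h8] at hq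
    obtain ⟨x, -, rfl⟩ := hq
    rfl
  · intro i
    ext ⟨x, m⟩
    constructor
    · intro hx
      have hm : m = j i := h7 i _ hx
      subst hm
      refine ⟨γ i • x, ?_, by rw [inv_smul_smul]⟩
      rw [h8]
      exact ⟨x, hx, rfl⟩
    · rintro ⟨y, hy, he⟩
      rw [h8] at hy
      obtain ⟨x', hx', he'⟩ := hy
      have h9 : y = γ i • x' := (Prod.ext_iff.1 he').1
      rw [h9, inv_smul_smul] at he
      rw [he]
      exact hx'

theorem Dec.union {ι κ : Type} {A B A' B' : Set (Y × ℕ)} (h : Dec Γ ι A B) (h' : Dec Γ κ A' B')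
    (hA : Disjoint A A') (hB : Disjoint B B') : Dec Γ (ι ⊕ κ) (A ∪ A') (B ∪ B') := by
  obtain ⟨P, Q, γ, j, k, h1, h2, h3, h4, h5, h6, h7, h8⟩ := h
  obtain ⟨P', Q', γ', j', k', h1', h2', h3', h4', h5', h6', h7', h8'⟩ := h'
  have hP : ∀ i i', Disjoint (P i) (P' i') := by
    intro i i'
    refine Set.disjoint_of_subset ?_ ?_ hA
    · rw [← h4]; exact Set.subset_iUnion P i
    · rw [← h4']; exact Set.subset_iUnion P' i'
  have hQ : ∀ i i', Disjoint (Q i) (Q' i') := by
    intro i i'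
    refine Set.disjoint_of_subset ?_ ?_ hB
    · rw [← h6]; exact Set.subset_iUnion Q i
    · rw [← h6']; exact Set.subset_iUnion Q' i'
  refine ⟨Sum.elim P P', Sum.elim Q Q', Sum.elim γ γ', Sum.elim j j', Sum.elim k k', ?_, ?_, ?_,
    ?_, ?_, ?_, ?_, ?_⟩
  · rintro (i | i)
    · exact h1 i
    · exact h1' i
  · rintro (i | i)
    · exact h2 i
    · exact h2' i
  · rintro (i | i) (i' | i') hne
    · exact h3 i i' (fun h => hne (by rw [h]))
    · exact hP i i'
    · exact (hP i' i).symm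
    · exact h3' i i' (fun h => hne (by rw [h]))
  · rw [Set.iUnion_sum, ← h4, ← h4']; rfl
  · rintro (i | i) (i' | i') hne
    · exact h5 i i' (fun h => hne (by rw [h]))
    · exact hQ i i'
    · exact (hQ i' i).symm
    · exact h5' i i' (fun h => hne (by rw [h]))
  · rw [Set.iUnion_sum, ← h6, ← h6']; rfl
  · rintro (i | i)
    · exact h7 i
    · exact h7' i
  · rintro (i | i)
    · exact h8 i
    · exact h8' i

theorem Dec.trans [MeasurableConstSMul Γ Y] {ι κ : Type} {A B C : Set (Y × ℕ)}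
    (h : Dec Γ ι A B) (h' : Dec Γ κ B C) : Dec Γ (ι × κ) A C := by
  obtain ⟨P, Q, γ, j, k, h1, h2, h3, h4, h5, h6, h7, h8⟩ := h
  obtain ⟨P', Q', γ', j', k', h1', h2', h3', h4', h5', h6', h7', h8'⟩ := h'
  have hm : ∀ (g : Γ) (n : ℕ), Measurable (fun p : Y × ℕ => (g • p.1, n)) := fun g n =>
    ((measurable_const_smul g).comp measurable_fst).prodMk measurable_const
  refine ⟨fun i => {p | p ∈ P i.1 ∧ (γ i.1 • p.1, k i.1) ∈ P' i.2},
    fun i => {q | q ∈ Q' i.2 ∧ ((γ' i.2)⁻¹ • q.1, j' i.2) ∈ Q i.1},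
    fun i => γ' i.2 * γ i.1, fun i => j i.1, fun i => k' i.2, ?_, ?_, ?_, ?_, ?_, ?_, ?_, ?_⟩
  · intro i
    exact (h1 i.1).inter (hm (γ i.1) (k i.1) (h1' i.2))
  · intro i
    exact (h2' i.2).inter (hm (γ' i.2)⁻¹ (j' i.2) (h2 i.1))
  · rintro ⟨i, i'⟩ ⟨l, l'⟩ hne
    rw [Set.disjoint_left]
    rintro p ⟨hp1, hp2⟩ ⟨hp3, hp4⟩
    by_cases hil : i = l
    · subst hil
      have hil' : i' ≠ l' := fun h => hne (by rw [h])
      exact Set.disjoint_left.1 (h3' _ _ hil') hp2 hp4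
    · exact Set.disjoint_left.1 (h3 _ _ hil) hp1 hp3
  · ext p
    rw [Set.mem_iUnion]
    constructor
    · rintro ⟨i, hp, -⟩
      rw [← h4]; exact Set.mem_iUnion.2 ⟨_, hp⟩
    · intro hp
      rw [← h4] at hp
      obtain ⟨i, hi⟩ := Set.mem_iUnion.1 hp
      have h9 : (γ i • p.1, k i) ∈ B := by
        rw [← h6]
        refine Set.mem_iUnion.2 ⟨i, ?_⟩
        rw [h8]
        refine ⟨p.1, ?_, rfl⟩
        have := h7 i p hi
        rw [← this]
        exact hi
      rw [← h4'] at h9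
      obtain ⟨i', hi'⟩ := Set.mem_iUnion.1 h9
      exact ⟨(i, i'), hi, hi'⟩
  · rintro ⟨i, i'⟩ ⟨l, l'⟩ hne
    rw [Set.disjoint_left]
    rintro p ⟨hp1, hp2⟩ ⟨hp3, hp4⟩
    by_cases hil : i' = l'
    · subst hil
      have hil' : i ≠ l := fun h => hne (by rw [h])
      exact Set.disjoint_left.1 (h5 _ _ hil') hp2 hp4
    · exact Set.disjoint_left.1 (h5' _ _ hil) hp1 hp3
  · ext q
    rw [Set.mem_iUnion]
    constructor
    · rintro ⟨i, hq, -⟩
      rw [← h6']; exact Set.mem_iUnion.2 ⟨_, hq⟩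
    · intro hq
      rw [← h6'] at hq
      obtain ⟨i', hi'⟩ := Set.mem_iUnion.1 hq
      have hq' := hi'
      rw [h8'] at hq'
      obtain ⟨y, hy, he⟩ := hq'
      have h9 : (y, j' i') ∈ B := by
        rw [← h4']; exact Set.mem_iUnion.2 ⟨i', hy⟩
      rw [← h6] at h9
      obtain ⟨i, hi⟩ := Set.mem_iUnion.1 h9
      refine ⟨(i, i'), hi', ?_⟩
      rw [he]
      show ((γ' i')⁻¹ • γ' i' • y, j' i') ∈ Q i
      rw [inv_smul_smul]
      exact hi
  · rintro i p ⟨hp, -⟩
    exact h7 _ _ hp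
  · rintro ⟨i, i'⟩
    ext ⟨x, m⟩
    constructor
    · rintro ⟨hq1, hq2⟩
      simp only at hq1 hq2
      have hq3 := hq2
      rw [h8] at hq3
      obtain ⟨y, hy, he⟩ := hq3
      have he1 : (γ' i')⁻¹ • x = γ i • y := (Prod.ext_iff.1 he).1
      have he2 : j' i' = k i := (Prod.ext_iff.1 he).2
      rw [h8'] at hq1
      obtain ⟨z, hz, he'⟩ := hq1
      have he3 : x = γ' i' • z := (Prod.ext_iff.1 he').1
      have he4 : m = k' i' := (Prod.ext_iff.1 he').2
      rw [he3, inv_smul_smul] at he1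
      refine ⟨y, ⟨hy, ?_⟩, ?_⟩
      · show (γ i • y, k i) ∈ P' i'
        rw [← he1, ← he2]
        exact hz
      · rw [he3, he4, he1, mul_smul]
    · rintro ⟨y, ⟨hy1, hy2⟩, he⟩
      simp only at hy1 hy2
      have he1 : x = (γ' i' * γ i) • y := (Prod.ext_iff.1 he).1
      have he2 : m = k' i' := (Prod.ext_iff.1 he).2
      have he3 : k i = j' i' := h7' _ _ hy2
      rw [mul_smul] at he1
      refine ⟨?_, ?_⟩
      · show (x, m) ∈ Q' i'
        rw [h8', he1, he2]
        exact ⟨γ i • y, by rw [← he3]; exact hy2, rfl⟩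
      · show ((γ' i')⁻¹ • x, j' i') ∈ Q i
        rw [he1, inv_smul_smul, ← he3, h8]
        exact ⟨y, hy1, rfl⟩

/-- the copy of `B` shifted up by `n` levels -/
def shift (n : ℕ) (B : Set (Y × ℕ)) : Set (Y × ℕ) := {p | ∃ m, (p.1, m) ∈ B ∧ p.2 = n + m}

theorem measurable_shift (n : ℕ) {B : Set (Y × ℕ)} (hB : MeasurableSet B) :
    MeasurableSet (shift n B) := by
  have h1 : shift n B = ⋃ m : ℕ, {p : Y × ℕ | (p.1, m) ∈ B} ∩ {p | p.2 = n + m} := by
    ext p; simp [shift]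
  rw [h1]
  refine MeasurableSet.iUnion fun m => MeasurableSet.inter ?_ ?_
  · have : Measurable (fun p : Y × ℕ => (p.1, m)) := measurable_fst.prodMk measurable_const
    exact this hB
  · exact measurable_snd (MeasurableSet.of_discrete (s := {l : ℕ | l = n + m}))

theorem dec_shift {k : ℕ} (n : ℕ) {B : Set (Y × ℕ)} (hB : MeasurableSet B)
    (hk : ∀ p ∈ B, p.2 < k) : Dec Γ (Fin k) B (shift n B) := by
  have hl : ∀ m : ℕ, MeasurableSet {p : Y × ℕ | p.2 = m} := fun m =>
    measurable_snd (MeasurableSet.of_discrete (s := {l : ℕ | l = m}))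
  refine ⟨fun i => B ∩ {p | p.2 = i.1}, fun i => shift n B ∩ {p | p.2 = n + i.1}, fun _ => 1,
    fun i => i.1, fun i => n + i.1, fun i => hB.inter (hl _),
    fun i => (measurable_shift n hB).inter (hl _), ?_, ?_, ?_, ?_, fun i p hp => hp.2, ?_⟩
  · intro i i' hne
    rw [Set.disjoint_left]
    rintro p ⟨-, h1⟩ ⟨-, h2⟩
    exact hne (Fin.ext (h1.symm.trans h2))
  · ext p
    rw [Set.mem_iUnion]
    constructor
    · rintro ⟨i, hp, -⟩; exact hp
    · intro hp; exact ⟨⟨p.2, hk p hp⟩, hp, rfl⟩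
  · intro i i' hne
    rw [Set.disjoint_left]
    rintro p ⟨-, h1⟩ ⟨-, h2⟩
    apply hne
    apply Fin.ext
    have h3 : p.2 = n + i.1 := h1
    have h4 : p.2 = n + i'.1 := h2
    omega
  · ext p
    rw [Set.mem_iUnion]
    constructor
    · rintro ⟨i, hp, -⟩; exact hp
    · intro hp
      obtain ⟨m, hm, he⟩ := hp
      exact ⟨⟨m, hk _ hm⟩, ⟨m, hm, he⟩, he⟩
  · intro i
    ext ⟨x, m⟩
    constructor
    · rintro ⟨⟨l, hl1, hl2⟩, hm⟩
      have h1 : m = n + l := hl2
      have h2 : m = n + i.1 := hm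
      have h3 : l = i.1 := by omega
      subst h3
      exact ⟨x, ⟨hl1, rfl⟩, by rw [one_smul, h2]⟩
    · rintro ⟨y, ⟨hy, -⟩, he⟩
      rw [one_smul] at he
      have h1 : x = y := (Prod.ext_iff.1 he).1
      have h2 : m = n + i.1 := (Prod.ext_iff.1 he).2
      subst h1
      exact ⟨⟨i.1, hy, h2⟩, h2⟩

theorem shift_zero (B : Set (Y × ℕ)) : shift 0 B = B := by
  ext ⟨x, m⟩
  constructor
  · rintro ⟨l, hl, he⟩
    have : m = l := by simpa using he
    rw [this]; exact hl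
  · intro h; exact ⟨m, h, by simp⟩

end equiv

section semigroup

variable (Γ : Type) (Y : Type) [Group Γ] [MulAction Γ Y] [MeasurableSpace Y]

/-- bounded Borel subsets of `Y × ℕ` -/
def BB : Type := {A : Set (Y × ℕ) // MeasurableSet A ∧ ∃ k, ∀ p ∈ A, p.2 < k}

variable {Y}

theorem equidec_symm {A B : Set (Y × ℕ)} (h : Equidec Γ A B) : Equidec Γ B A := by
  obtain ⟨r, h⟩ := h
  exact ⟨r, h.symm⟩

theorem equidec_trans [MeasurableConstSMul Γ Y] {A B C : Set (Y × ℕ)} (h : Equidec Γ A B)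
    (h' : Equidec Γ B C) : Equidec Γ A C := by
  obtain ⟨r, h⟩ := h
  obtain ⟨r', h'⟩ := h'
  exact (h.trans h').equidec

theorem equidec_union {A B A' B' : Set (Y × ℕ)} (h : Equidec Γ A B) (h' : Equidec Γ A' B')
    (hA : Disjoint A A') (hB : Disjoint B B') : Equidec Γ (A ∪ A') (B ∪ B') := by
  obtain ⟨r, h⟩ := h
  obtain ⟨r', h'⟩ := h'
  exact (h.union h' hA hB).equidec

theorem equidec_shift (n : ℕ) (B : BB Y) : Equidec Γ B.1 (shift n B.1) := by
  obtain ⟨k, hk⟩ := B.2.2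
  exact ⟨k, dec_shift n B.2.1 hk⟩

theorem equidec_refl (B : BB Y) : Equidec Γ B.1 B.1 := by
  have := equidec_shift Γ 0 B
  rwa [shift_zero] at this

variable (Y)

/-- equidecomposability of bounded Borel sets -/
def typeSetoid [MeasurableConstSMul Γ Y] : Setoid (BB Y) where
  r A B := Equidec Γ A.1 B.1
  iseqv := ⟨equidec_refl Γ, equidec_symm Γ, equidec_trans Γ⟩

/-- the type semigroup `S(Y, Γ, Borel)` -/
def TypeSemigroup [MeasurableConstSMul Γ Y] : Type := Quotient (typeSetoid Γ Y)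

variable {Y}

/-- a level above all the levels of a bounded set -/
noncomputable def top (A : BB Y) : ℕ := A.2.2.choose

theorem lt_top (A : BB Y) : ∀ p ∈ A.1, p.2 < top A := A.2.2.choose_spec

/-- the disjoint sum of `A` and the copy of `B` shifted to levels above those of `A` -/
noncomputable def dsum (A B : BB Y) : BB Y :=
  ⟨A.1 ∪ shift (top A) B.1, A.2.1.union (measurable_shift _ B.2.1), top A + top B, by
    rintro p (hp | ⟨m, hm, he⟩)
    · have := lt_top A p hp
      omega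
    · have := lt_top B _ hm
      simp only at this
      omega⟩

theorem disjoint_shift (A B : BB Y) : Disjoint A.1 (shift (top A) B.1) := by
  rw [Set.disjoint_left]
  rintro p hp ⟨m, -, he⟩
  have := lt_top A p hp
  omega

def BB.union (A B : BB Y) : BB Y :=
  ⟨A.1 ∪ B.1, A.2.1.union B.2.1, by
    obtain ⟨k, hk⟩ := A.2.2
    obtain ⟨l, hl⟩ := B.2.2
    refine ⟨k + l, ?_⟩
    rintro p (hp | hp)
    · have := hk p hp; omega
    · have := hl p hp; omega⟩

def BB.shift (n : ℕ) (B : BB Y) : BB Y :=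
  ⟨PP.shift n B.1, measurable_shift n B.2.1, by
    obtain ⟨k, hk⟩ := B.2.2
    refine ⟨n + k, ?_⟩
    rintro p ⟨m, hm, he⟩
    have := hk _ hm
    simp only at this
    omega⟩

variable [MeasurableConstSMul Γ Y]

/-- the class of a bounded Borel set -/
def cls (A : BB Y) : TypeSemigroup Γ Y := Quotient.mk (typeSetoid Γ Y) A

theorem cls_eq {A B : BB Y} : cls Γ A = cls Γ B ↔ Equidec Γ A.1 B.1 :=
  ⟨fun h => Quotient.exact h, fun h => Quotient.sound h⟩

noncomputable instance : Add (TypeSemigroup Γ Y) :=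
  ⟨Quotient.map₂ dsum (by
    intro A A' hA B B' hB
    have h1 : Equidec Γ (shift (top A) B.1) (shift (top A') B'.1) :=
      equidec_trans Γ (equidec_trans Γ (equidec_symm Γ (equidec_shift Γ (top A) B)) hB)
        (equidec_shift Γ (top A') B')
    exact equidec_union Γ hA h1 (disjoint_shift A B) (disjoint_shift A' B'))⟩

theorem cls_dsum (A B : BB Y) : cls Γ A + cls Γ B = cls Γ (dsum A B) := rfl

theorem cls_add {A B : BB Y} (h : Disjoint A.1 B.1) : cls Γ A + cls Γ B = cls Γ (A.union B) := by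
  rw [cls_dsum, cls_eq]
  exact equidec_union Γ (equidec_refl Γ A) (equidec_symm Γ (equidec_shift Γ (top A) B))
    (disjoint_shift A B) h

theorem cls_shift (n : ℕ) (B : BB Y) : cls Γ (B.shift n) = cls Γ B :=
  (cls_eq Γ).2 (equidec_symm Γ (equidec_shift Γ n B))

theorem exists_rep (α : TypeSemigroup Γ Y) (n : ℕ) :
    ∃ A : BB Y, cls Γ A = α ∧ ∀ p ∈ A.1, n ≤ p.2 := by
  induction α using Quotient.inductionOn with
  | h A =>
    refine ⟨A.shift n, cls_shift Γ n A, ?_⟩
    rintro p ⟨m, -, he⟩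
    omega

instance : Zero (TypeSemigroup Γ Y) := ⟨cls Γ ⟨∅, MeasurableSet.empty, 0, by simp⟩⟩

noncomputable instance : AddCommMonoid (TypeSemigroup Γ Y) where
  add_assoc α β γ := by
    obtain ⟨A, rfl, -⟩ := exists_rep Γ α 0
    obtain ⟨B, rfl, hB⟩ := exists_rep Γ β (top A)
    obtain ⟨C, rfl, hC⟩ := exists_rep Γ γ (top A + top B)
    have h1 : Disjoint A.1 B.1 := Set.disjoint_left.2 fun p hp hp' => by
      have := lt_top A p hp; have := hB p hp'; omega
    have h2 : Disjoint A.1 C.1 := Set.disjoint_left.2 fun p hp hp' => by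
      have := lt_top A p hp; have := hC p hp'; omega
    have h3 : Disjoint B.1 C.1 := Set.disjoint_left.2 fun p hp hp' => by
      have := lt_top B p hp; have := hC p hp'; omega
    rw [cls_add Γ h1, cls_add Γ h3, cls_add Γ (A := A.union B) (B := C)
      (Set.disjoint_union_left.2 ⟨h2, h3⟩), cls_add Γ (A := A) (B := B.union C)
      (Set.disjoint_union_right.2 ⟨h1, h2⟩)]
    congr 1
    apply Subtype.ext
    exact Set.union_assoc _ _ _
  zero_add α := by
    obtain ⟨A, rfl, -⟩ := exists_rep Γ α 0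
    refine (cls_add Γ (A := ⟨∅, MeasurableSet.empty, 0, by simp⟩) (B := A)
      (Set.empty_disjoint _)).trans ?_
    congr 1
    apply Subtype.ext
    exact Set.empty_union _
  add_zero α := by
    obtain ⟨A, rfl, -⟩ := exists_rep Γ α 0
    refine (cls_add Γ (A := A) (B := ⟨∅, MeasurableSet.empty, 0, by simp⟩)
      (Set.disjoint_empty _)).trans ?_
    congr 1
    apply Subtype.ext
    exact Set.union_empty _
  add_comm α β := by
    obtain ⟨A, rfl, -⟩ := exists_rep Γ α 0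
    obtain ⟨B, rfl, hB⟩ := exists_rep Γ β (top A)
    have h1 : Disjoint A.1 B.1 := Set.disjoint_left.2 fun p hp hp' => by
      have := lt_top A p hp; have := hB p hp'; omega
    rw [cls_add Γ h1, cls_add Γ h1.symm]
    congr 1
    apply Subtype.ext
    exact Set.union_comm _ _
  nsmul := nsmulRec

variable (Y)

/-- the type semigroup has plain paradoxes, `α ≤ β` meaning `β = α + γ` for some `γ` -/
def PlainParadoxes : Prop :=
  ∀ (α : TypeSemigroup Γ Y) (n m : ℕ), m < n → (∃ β, m • α = n • α + β) → ∃ β, α = 2 • α + β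

end semigroup

instance : MeasurableConstSMul (FreeGroup S) X := ⟨measurable_smul'⟩

def lev (s : Finset ℕ) : BB X := ⟨Set.univ ×ˢ (s : Set ℕ), MeasurableSet.univ.prod
  MeasurableSet.of_discrete, s.sup id + 1, by
    rintro p ⟨-, hp⟩
    exact Nat.lt_succ_of_le (Finset.le_sup (f := id) hp)⟩

theorem lev_add {s t : Finset ℕ} (h : Disjoint s t) :
    cls (FreeGroup S) (lev s) + cls (FreeGroup S) (lev t) = cls (FreeGroup S) (lev (s ∪ t)) := by
  have h1 : Disjoint (lev s).1 (lev t).1 := by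
    rw [Set.disjoint_left]
    rintro p ⟨-, hp⟩ ⟨-, hp'⟩
    exact Finset.disjoint_left.1 h hp hp'
  rw [cls_add _ h1]
  congr 1
  apply Subtype.ext
  show (Set.univ ×ˢ (s : Set ℕ)) ∪ (Set.univ ×ˢ (t : Set ℕ)) = Set.univ ×ˢ ((s ∪ t : Finset ℕ) : Set ℕ)
  rw [Finset.coe_union, Set.prod_union]

theorem lev_one (n : ℕ) : cls (FreeGroup S) (lev {n}) = cls (FreeGroup S) (lev {0}) := by
  rw [← cls_shift _ n (lev {0})]
  congr 1
  apply Subtype.ext
  ext ⟨x, m⟩
  constructor
  · rintro ⟨-, hm⟩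
    have h1 : m = n := by simpa using hm
    refine ⟨0, ⟨trivial, by simp⟩, by simpa using h1⟩
  · rintro ⟨l, ⟨-, hl⟩, he⟩
    have h1 : l = 0 := by simpa using hl
    refine ⟨trivial, ?_⟩
    have h2 : m = n := by simpa [h1] using he
    simp [h2]

theorem two_nsmul_lev : 2 • cls (FreeGroup S) (lev {0}) = cls (FreeGroup S) (lev {0, 1}) := by
  rw [two_nsmul]
  conv_lhs => rw [← lev_one 1]
  conv_lhs => arg 1; rw [lev_one 1]
  rw [lev_add (by simp)]
  rfl

theorem three_nsmul_lev :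
    3 • cls (FreeGroup S) (lev {0}) = cls (FreeGroup S) (lev {0, 1, 2}) := by
  rw [succ_nsmul, two_nsmul_lev, ← lev_one 2, lev_add (by simp)]
  rfl

theorem three_eq_two : 3 • cls (FreeGroup S) (lev {0}) = 2 • cls (FreeGroup S) (lev {0}) := by
  rw [two_nsmul_lev, three_nsmul_lev, cls_eq]
  have := dec32.equidec
  have h1 : (lev {0, 1, 2}).1 = Set.univ ×ˢ {0, 1, 2} := by
    show Set.univ ×ˢ (({0, 1, 2} : Finset ℕ) : Set ℕ) = _
    simp
  have h2 : (lev {0, 1}).1 = Set.univ ×ˢ {0, 1} := by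
    show Set.univ ×ˢ (({0, 1} : Finset ℕ) : Set ℕ) = _
    simp
  rw [h1, h2]
  exact this

theorem not_two_le_one :
    ¬ ∃ β, cls (FreeGroup S) (lev {0}) = 2 • cls (FreeGroup S) (lev {0}) + β := by
  rintro ⟨β, hβ⟩
  obtain ⟨B, rfl, hB⟩ := exists_rep (FreeGroup S) β 2
  have h1 : Disjoint (lev {0, 1}).1 B.1 := by
    rw [Set.disjoint_left]
    rintro p ⟨-, hp⟩ hp'
    have := hB p hp'
    have h2 : p.2 = 0 ∨ p.2 = 1 := by simpa using hp
    omega
  rw [two_nsmul_lev, cls_add _ h1, cls_eq] at hβ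
  obtain ⟨r, hr⟩ := hβ
  refine no_dec ?_ ?_ hr.symm
  · intro x b
    left
    refine ⟨trivial, ?_⟩
    cases b <;> simp
  · rintro q ⟨-, hq⟩
    simpa using hq

end V11256.PP
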